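import Pool.Agent.LibFS32.Base

/-! Row A1 (MEDIUM). Only one run of a connected set has no source, and it is below all other elements.
PLAN. Let `R a b := b ∈ K ∧ (b = a + 1 ∨ a = b + 1 ∨ b = a !)` (forward steps) and `W = K.filter fun x => Relation.ReflTransGen R v x` (`classical`). (1) For `x ∈ W`: `v < x ∨ SameRun K v x` (induction on the chain:
for a step from `x` to `x ± 1`: same run as `x` (`sr_succ`, `sr_symm`, `sr_trans`), and if `v < x`, `y = x - 1`, then `v ≤ y` (`v = y`: `sr_self`); for the step to `x !` (`x ≥ 3`, since `¬ Rigid K`, so `2 * x ≤ x !`, `fac_gap`): if `v < x` then `v < x !`; if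
`SameRun K v x`: `x !` is not in the run of `v` (otherwise `x` is a source of `v`: `src_run (src_self ..)`), so `v < x !` by `run_lt (a := x) (b := v) (c := x !) (d := x !)`). (2) For `x ∈ W` and `Src K y x` we have `y ∈ W`: induction on the chain: `x = v` has
no source; for the steps `x → x ± 1` the sources are the same (`src_run`); for the step `x → x !`: `Src.unique` gives `y = x ∈ W`. (3) So `W` is closed under `Adj` (`z ! = x` gives `Src K z x`) and contains `v`: `hc` gives `W = K`. -/

set_option autoImplicit false

namespace Pool.Agent.LibFSN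

open Nat Finset

theorem root_le {K : Finset ℕ} (hK : ¬ Rigid K) (hc : Conn K) {v : ℕ} (hv : v ∈ K)
    (hs : ¬ ∃ w, Src K w v) : ∀ x ∈ K, v < x ∨ SameRun K v x := by
  classical
  let R : ℕ → ℕ → Prop := fun a b => b ∈ K ∧ (b = a + 1 ∨ a = b + 1 ∨ b = a !)
  have h3 : ∀ u ∈ K, 3 ≤ u := fun u hu => by
    by_contra hlt
    exact hK (Or.inl ⟨u, hu, by omega⟩)
  have hmem : ∀ x, Relation.ReflTransGen R v x → x ∈ K := by
    intro x hx
    induction hx with
    | refl => exact hv
    | tail _ hbc _ => exact hbc.1
  have h1 : ∀ x, Relation.ReflTransGen R v x → v < x ∨ SameRun K v x := by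
    intro x hx
    induction hx with
    | refl => exact Or.inr (sr_self hv)
    | @tail a b hab hbc ih =>
      have ha : a ∈ K := hmem a hab
      obtain ⟨hb, h⟩ := hbc
      rcases h with h | h | h
      · subst h
        rcases ih with ih | ih
        · left; omega
        · right; exact sr_trans ih (sr_succ ha hb)
      · subst h
        rcases ih with ih | ih
        · by_cases hvb : v = b
          · right; rw [hvb]; exact sr_self hb
          · left; omega
        · right; exact sr_trans ih (sr_symm (sr_succ hb ha))
      · subst h
        have h3a := h3 a ha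
        have hg := fac_gap h3a
        rcases ih with ih | ih
        · left; omega
        · left
          have hn : ¬ SameRun K a (a !) := fun hh =>
            hs ⟨a, src_run (src_self ha hb) (sr_symm (sr_trans ih hh))⟩
          exact run_lt (a := a) (b := v) (c := a !) (d := a !) (sr_symm ih) (sr_self hb)
            (by omega) hn
  have h2 : ∀ x, Relation.ReflTransGen R v x → ∀ y, Src K y x →
      Relation.ReflTransGen R v y := by
    intro x hx
    induction hx with
    | refl => intro y hy; exact absurd ⟨y, hy⟩ hs
    | @tail a b hab hbc ih =>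
      intro y hy
      have ha := hmem a hab
      obtain ⟨hb, h⟩ := hbc
      rcases h with h | h | h
      · subst h
        exact ih y (src_run hy (sr_symm (sr_succ ha hb)))
      · subst h
        exact ih y (src_run hy (sr_succ hb ha))
      · subst h
        have he := Src.unique hK hy (src_self ha hb)
        rw [he]; exact hab
  let W := K.filter fun x => Relation.ReflTransGen R v x
  have hW : W = K := by
    apply hc W (filter_subset _ _) ⟨v, mem_filter.2 ⟨hv, Relation.ReflTransGen.refl⟩⟩
    intro u hu z hz huz
    rw [mem_filter] at hu ⊢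
    refine ⟨hz, ?_⟩
    rcases huz with h | h | h | h
    · exact hu.2.tail ⟨hz, Or.inl h.symm⟩
    · exact hu.2.tail ⟨hz, Or.inr (Or.inl h.symm)⟩
    · exact hu.2.tail ⟨hz, Or.inr (Or.inr h.symm)⟩
    · refine h2 u hu.2 z ?_
      have := hu.1
      rw [← h] at this ⊢
      exact src_self hz this
  intro x hx
  have hx' : x ∈ W := by rw [hW]; exact hx
  exact h1 x (mem_filter.1 hx').2

end Pool.Agent.LibFSN
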