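import Pool.Agent.LibFS32.A1

/-! Row A2 (MEDIUM). The shift is monotone on a connected set.
PLAN. `fac_sub`: for `w' ≤ w`, `s' ≤ s`: `(w' + s')! + w ! ≤ (w + s)! + w' !`: with `r = (w' + 1).ascFactorial s'`: `(w' + s')! = w' ! * r` (`Nat.factorial_mul_ascFactorial`), `1 ≤ r`, and `w ! * r ≤ (w + s)!` (induction on `s'`, or
`Nat.ascFactorial` monotone); then `w' ! * r + w ! ≤ w ! * r + w' !` since `(w ! - w' !) * (r - 1) ≥ 0` (nlinarith). `sh_mono`: strong induction on `v` for all `u`. If `SameRun K u v`: equal (`sh_run`). Otherwise: if `v` has no source then `root_le` for `v` and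
`u < v` give `SameRun K v u`, contradiction. So `Src K w v` (`w < v` by `Src.lt`). If `u` has no source: `sh_not` and `le_sh`. If `Src K w' u`: `w' ≠ w` (otherwise `u`, `v` are both in the run of `w !`: `sr_trans`); if `w < w'` then `w ! < w' !`
(`Nat.factorial_lt`, elements of `K` are `≥ 3` as `¬ Rigid K`) and `run_lt` for `SameRun K (w !) v`, `SameRun K (w' !) u` gives `v < u`, contradiction; so `w' < w` and the induction hypothesis for `w` gives `sh w' ≤ sh w`; `sh_of` twice and `fac_sub`. -/

set_option autoImplicit false

namespace Pool.Agent.LibFSN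

open Nat Finset

theorem fac_sub {w w' s s' : ℕ} (hw : w' ≤ w) (hs : s' ≤ s) :
    (w' + s')! + w ! ≤ (w + s)! + w' ! := by
  have h1 : ∀ t : ℕ, (w' + t)! + w ! ≤ (w + t)! + w' ! := by
    intro t
    induction t with
    | zero =>
      rw [Nat.add_zero, Nat.add_zero, Nat.add_comm]
    | succ t ih =>
      have e1 : (w' + (t + 1))! = (w' + t) * (w' + t)! + (w' + t)! := by
        rw [← Nat.add_assoc, Nat.factorial_succ]
        ring
      have e2 : (w + (t + 1))! = (w + t) * (w + t)! + (w + t)! := by
        rw [← Nat.add_assoc, Nat.factorial_succ]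
        ring
      have e3 : (w' + t) * (w' + t)! ≤ (w + t) * (w + t)! :=
        Nat.mul_le_mul (by omega) (Nat.factorial_le (by omega))
      rw [e1, e2]
      omega
  have h2 := h1 s'
  have h3 : (w + s')! ≤ (w + s)! := Nat.factorial_le (by omega)
  omega

theorem sh_mono {K : Finset ℕ} (hK : ¬ Rigid K) (hc : Conn K) (b : ℕ) {u v : ℕ} (hu : u ∈ K)
    (hv : v ∈ K) (h : u < v) : sh K b u ≤ sh K b v := by
  have key : ∀ v, v ∈ K → ∀ u, u ∈ K → u < v → sh K b u ≤ sh K b v := by
    intro v
    induction v using Nat.strong_induction_on with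
    | _ v ih =>
      intro hv u hu h
      by_cases hr : SameRun K u v
      · exact (sh_run hK b hr).le
      · have hs : ∃ w, Src K w v := by
          by_contra hs
          rcases root_le hK hc hv hs u hu with h1 | h1
          · omega
          · exact hr (sr_symm h1)
        obtain ⟨w, hw⟩ := hs
        by_cases hs' : ∃ w', Src K w' u
        · obtain ⟨w', hw'⟩ := hs'
          have hne : w' ≠ w := by
            rintro rfl
            exact hr (sr_trans (sr_symm hw'.2.2) hw.2.2)
          have hlt : w' < w := by
            by_contra hcon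
            have h1 : w < w' := by omega
            have h3 : 3 ≤ w := by
              by_contra hc'
              exact hK (Or.inl ⟨w, hw.1, by omega⟩)
            have h2 : w ! < w' ! := (Nat.factorial_lt (by omega)).2 h1
            have h4 := run_lt hw.2.2 hw'.2.2 h2 (fun h5 =>
              hr (sr_trans (sr_trans (sr_symm hw'.2.2) (sr_symm h5)) hw.2.2))
            omega
          have h5 := ih w (hw.lt hK) hw.1 w' hw'.1 hlt
          rw [sh_of hK b hw, sh_of hK b hw']
          have h6 := fac_sub hlt.le h5
          have h7 : w' ! ≤ (w' + sh K b w')! := Nat.factorial_le (by omega)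
          omega
        · rw [sh_not b hs']
          exact le_sh hK b v hv
  exact key v hv u hu h

end Pool.Agent.LibFSN
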