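import Pool.Agent.LibFS32.Base

/-! Row A3 (SHORT). Divisibility of the shifts.
PLAN. `dvd_sh`: strong induction on `u`: no source: `sh_not`. `Src K w u`: `sh_of`: `(w + sh w)! - w !`; `d ∣ w !` (`hd`, `Src` gives `w ∈ K`, `w ! ∈ K`), `w ! ∣ (w + sh w)!` (`Nat.factorial_dvd_factorial`), `Nat.dvd_sub`. `two_dvd_sh`: the same with
`2 ∣ w !` (`w ≥ 2` as `¬ Rigid K`). -/

set_option autoImplicit false

namespace Pool.Agent.LibFSN

open Nat Finset

theorem dvd_sh {K : Finset ℕ} (hK : ¬ Rigid K) {b d : ℕ} (hb : d ∣ b)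
    (hd : ∀ w ∈ K, w ! ∈ K → d ∣ w !) : ∀ u ∈ K, d ∣ sh K b u := by
  intro u _
  by_cases h : ∃ w, Src K w u
  · obtain ⟨w, hw⟩ := h
    rw [sh_of hK b hw]
    have h1 : d ∣ w ! := hd w hw.1 hw.2.1
    exact Nat.dvd_sub (h1.trans (Nat.factorial_dvd_factorial (Nat.le_add_right _ _))) h1
  · rw [sh_not b h]
    exact hb

theorem two_dvd_sh {K : Finset ℕ} (hK : ¬ Rigid K) (b : ℕ) {u : ℕ} (h : ∃ w, Src K w u) :
    2 ∣ sh K b u := by
  obtain ⟨w, hw⟩ := h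
  rw [sh_of hK b hw]
  have h2 : 2 ≤ w := by
    by_contra hc
    exact hK (Or.inl ⟨w, hw.1, by omega⟩)
  have h1 : 2 ∣ w ! := Nat.dvd_factorial (by norm_num) h2
  exact Nat.dvd_sub (h1.trans (Nat.factorial_dvd_factorial (Nat.le_add_right _ _))) h1

end Pool.Agent.LibFSN
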