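import Pool.Agent.LibFS32.Base

/-! Row A4 (MEDIUM, elementary number theory). A test `w + e ∤ w ! + j` is transported to `x + e ∤ x ! + j` (here `v = w ! + j`, `v' = x ! + j`, `|j| ≤ 3 - e`).
PLAN. `dvd3`: a composite `n ≥ 6` divides `(n - 3)!` (as `dvd_fac_of_composite` in `Pool/Agent/LibFSN/Rel.lean`, which gives `(n - 2)!`). Facts for a prime `p`: `p = x + 1`: `p ∣ x ! + 1` (`wilson`); `p = x + 2`: `p ∣ (x !) - 1` (from `wilson` for `x + 1`:
`p ∣ (x + 1) * x ! + 1` and `x + 1 ≡ -1`; work in `ZMod p` or with integers); `p ∤ x !`. So for `x + e = p` prime and `x ! + j`: `e = 1`: `p ∣ x ! + j` iff `p ∣ j - 1` iff `j = 1` (`p ≥ 10`); `e = 2`: iff `p ∣ 1 + j` iff `j = -1`; `e = 3`: `j = 0`, never. For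
composite `x + e` (`≥ 10`): it divides `x !`, so it divides `x ! + j` iff `j = 0`. The same for `w` (`w + e ≥ 6` if composite, since `w ≥ 4` and `5` is prime; only the direction `composite → divides w !` and, for primes, `e = 1, j = 1` and `e = 2, j = -1` divide,
are needed). Cases: `w + e` prime: then `x + e` is prime (`hp`); `hd` excludes `(e, j) = (1, 1), (2, -1)`; all other cases do not divide. `w + e` composite: `w + e ∣ w !`, so `hd` gives `v ≠ w !`; if `x + e` is composite: not a divisor as `j ≠ 0`; if `x + e` is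
prime: `hc` excludes `(1, 1)`, `(2, -1)`. (Suggestion: `omega` for `v' = x ! + j` in the finitely many cases `e = 1, 2, 3`, `v = w ! - 2, ..., w ! + 2`.) -/

set_option autoImplicit false

namespace Pool.Agent.LibFSN

open Nat Finset

private theorem A4_dvd3 {n : ℕ} (hn : 6 ≤ n) (hp : ¬ n.Prime) : n ∣ (n - 3)! := by
  obtain ⟨a, ha, ha1, ha2⟩ := Nat.exists_dvd_of_not_prime (by omega) hp
  obtain ⟨b, rfl⟩ := ha
  have hb0 : 0 < b := Nat.pos_of_ne_zero (by rintro rfl; simp at hn)
  have ha0 : 0 < a := Nat.pos_of_ne_zero (by rintro rfl; simp at hn)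
  have hb1 : b ≠ 1 := by rintro rfl; simp at ha2
  have key : ∀ {c d m : ℕ}, 0 < c → c < d → d ≤ m → c * d ∣ m ! := by
    intro c d m hc hcd hdm
    have h1 : c ∣ (d - 1)! := Nat.dvd_factorial hc (by omega)
    have h2 : c * d ∣ (d - 1)! * d := Nat.mul_dvd_mul_right h1 d
    rw [mul_comm ((d - 1)!) d, Nat.mul_factorial_pred (by omega)] at h2
    exact h2.trans (Nat.factorial_dvd_factorial hdm)
  have ha' : 2 ≤ a := by omega
  have hb' : 2 ≤ b := by omega
  have big : ∀ c d : ℕ, 2 ≤ c → c < d → d + 3 ≤ c * d := by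
    intro c d hc hcd
    have h1 : 2 * d ≤ c * d := Nat.mul_le_mul_right d hc
    omega
  rcases lt_trichotomy a b with hlt | rfl | hlt
  · exact key ha0 hlt (Nat.le_sub_of_add_le (big a b ha' hlt))
  · have h3 : 3 ≤ a := by
      by_contra hc
      have : a = 2 := by omega
      subst this
      omega
    have h5 : 2 * a + 3 ≤ a * a := by nlinarith
    have h4 : a * (2 * a) ∣ (a * a - 3)! := key ha0 (by omega) (Nat.le_sub_of_add_le h5)
    exact (Nat.mul_dvd_mul_left a (Dvd.intro_left 2 rfl)).trans h4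
  · have h6 := big b a hb' hlt
    rw [mul_comm]
    exact key hb0 hlt (Nat.le_sub_of_add_le h6)

/-- Wilson in the integers. -/
private theorem A4_w1 {x : ℕ} (h : (x + 1).Prime) : ((x + 1 : ℕ) : ℤ) ∣ (x ! : ℤ) + 1 := by
  have := wilson h
  exact_mod_cast this

private theorem A4_w2 {x : ℕ} (h : (x + 2).Prime) : ((x + 2 : ℕ) : ℤ) ∣ (x ! : ℤ) - 1 := by
  have h1 := A4_w1 (x := x + 1) h
  rw [Nat.factorial_succ] at h1
  have h2 : ((x ! : ℤ) - 1) = ((x + 2 : ℕ) : ℤ) * (x ! : ℤ) -
      ((((x + 1) * x ! : ℕ) : ℤ) + 1) := by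
    push_cast
    ring
  rw [h2]
  exact dvd_sub (dvd_mul_right _ _) h1

/-- a small multiple is zero -/
private theorem A4_small {p : ℕ} {j : ℤ} (hp : 10 ≤ p) (h1 : -9 ≤ j) (h2 : j ≤ 9)
    (h : (p : ℤ) ∣ j) : j = 0 := by
  rcases h with ⟨c, rfl⟩
  have hp' : (10 : ℤ) ≤ p := by exact_mod_cast hp
  rcases lt_trichotomy c 0 with hc | hc | hc
  · nlinarith
  · rw [hc, mul_zero]
  · nlinarith

theorem run_test {w x e v v' : ℕ} (hw : 4 ≤ w) (hx : 9 ≤ x) (he : 1 ≤ e)
    (hv : v' + w ! = v + x !) (h1 : v + e ≤ w ! + 3) (h2 : w ! + e ≤ v + 3)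
    (hp : (w + e).Prime → (x + e).Prime)
    (hc : ¬ (w + e).Prime → (x + e).Prime → (e = 1 → v ≠ w ! + 1) ∧ (e = 2 → v + 1 ≠ w !))
    (hd : ¬ (w + e) ∣ v) : ¬ (x + e) ∣ v' := by
  intro hdiv
  have hZ : ((x + e : ℕ) : ℤ) ∣ (v' : ℤ) := Int.natCast_dvd_natCast.2 hdiv
  have hv' : (v' : ℤ) = (x ! : ℤ) + ((v : ℤ) - (w ! : ℤ)) := by
    have : (v' : ℤ) + (w ! : ℤ) = (v : ℤ) + (x ! : ℤ) := by exact_mod_cast hv
    linarith
  have j1 : (v : ℤ) - (w ! : ℤ) + e ≤ 3 := by
    have : (v : ℤ) + e ≤ (w ! : ℤ) + 3 := by exact_mod_cast h1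
    linarith
  have j2 : (e : ℤ) - 3 ≤ (v : ℤ) - (w ! : ℤ) := by
    have : (w ! : ℤ) + e ≤ (v : ℤ) + 3 := by exact_mod_cast h2
    linarith
  have he' : (1 : ℤ) ≤ e := by exact_mod_cast he
  by_cases hxp : (x + e).Prime
  · have he3 : e = 1 ∨ e = 2 ∨ e = 3 := by omega
    rcases he3 with rfl | rfl | rfl
    · have hj : (v : ℤ) - (w ! : ℤ) - 1 = 0 := by
        refine A4_small (p := x + 1) (by omega) (by push_cast at j2; linarith)
          (by push_cast at j1; linarith) ?_
        have := dvd_sub hZ (A4_w1 hxp)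
        have e1 : (v' : ℤ) - ((x ! : ℤ) + 1) = (v : ℤ) - (w ! : ℤ) - 1 := by
          rw [hv']; ring
        rwa [e1] at this
      have hv1 : v = w ! + 1 := by
        have : (v : ℤ) = ((w ! + 1 : ℕ) : ℤ) := by push_cast; linarith
        exact_mod_cast this
      by_cases hwp : (w + 1).Prime
      · exact hd (hv1 ▸ wilson hwp)
      · exact (hc hwp hxp).1 rfl hv1
    · have hj : (v : ℤ) - (w ! : ℤ) + 1 = 0 := by
        refine A4_small (p := x + 2) (by omega) (by push_cast at j2; linarith)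
          (by push_cast at j1; linarith) ?_
        have := dvd_sub hZ (A4_w2 hxp)
        have e1 : (v' : ℤ) - ((x ! : ℤ) - 1) = (v : ℤ) - (w ! : ℤ) + 1 := by
          rw [hv']; ring
        rwa [e1] at this
      have hv1 : v + 1 = w ! := by
        have : ((v + 1 : ℕ) : ℤ) = ((w ! : ℕ) : ℤ) := by push_cast; linarith
        exact_mod_cast this
      by_cases hwp : (w + 2).Prime
      · have h3 := A4_w2 hwp
        have h4 : (w ! : ℤ) - 1 = (v : ℤ) := by
          rw [← hv1]; push_cast; ring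
        rw [h4] at h3
        exact hd (Int.natCast_dvd_natCast.1 h3)
      · exact (hc hwp hxp).2 rfl hv1
    · have hj : (v : ℤ) - (w ! : ℤ) = 0 := by
        push_cast at j1 j2
        linarith
      rw [hj, add_zero] at hv'
      have h5 : v' = x ! := by exact_mod_cast hv'
      rw [h5, hxp.dvd_factorial] at hdiv
      omega
  · have hwp : ¬ (w + e).Prime := fun h => hxp (hp h)
    have he3 : e ≤ 3 := by omega
    have hw6 : 6 ≤ w + e := by
      by_contra hcon
      have : w + e = 5 := by omega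
      rw [this] at hwp
      exact hwp (by norm_num)
    have hwd : w + e ∣ w ! := (A4_dvd3 hw6 hwp).trans (Nat.factorial_dvd_factorial (by omega))
    have hxd : x + e ∣ x ! := (A4_dvd3 (by omega) hxp).trans (Nat.factorial_dvd_factorial (by omega))
    have hxZ : ((x + e : ℕ) : ℤ) ∣ (x ! : ℤ) := Int.natCast_dvd_natCast.2 hxd
    have hj : (v : ℤ) - (w ! : ℤ) = 0 := by
      refine A4_small (p := x + e) (by omega) (by linarith) (by linarith) ?_
      have := dvd_sub hZ hxZ
      have e1 : (v' : ℤ) - (x ! : ℤ) = (v : ℤ) - (w ! : ℤ) := by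
        rw [hv']; ring
      rwa [e1] at this
    have hvw : v = w ! := by
      have : (v : ℤ) = ((w ! : ℕ) : ℤ) := by linarith
      exact_mod_cast this
    exact hd (hvw ▸ hwd)

end Pool.Agent.LibFSN
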