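import Pool.Agent.LibFS32.A2

/-! Row A5 (MEDIUM). The tests `u ∤ v` where `v` is in the run of `w !`, `w < u < v`, and `u` is neither in the run of `w` nor in the run of `v`.
PLAN. Abbreviate `nr := h.nr`. `u` has a source: otherwise `root_le nr h.conn hu` for the element `w` gives `u < w` or `SameRun K u w`. Let `Src K S u` (`S ∈ K`, `S ! ∈ K`, `SameRun K (S !) u`). `S ≠ w` (otherwise `u`, `v` are in the same run). `S < w`: otherwise
`w < S`, `w ! < S !`, and `run_lt` for `SameRun K (w !) v`, `SameRun K (S !) u` (not the same run) gives `v < u`. `S ! ≠ w` (otherwise `SameRun K w u`), `S ! ≠ w !`. `S ! ∣ w !`. Put `g x = x + sh K b x`; `sh_fac` gives `g (S !) = (g S)!`, `g (w !) = (g w)!`,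
`sh_run`: `g v + w ! = v + (g w)!`, `g u + S ! = u + (g S)!`; `g S < g w` (`sh_mono`), `9 ≤ g x` (`le_sh`). `v ≤ w ! + 4`, `w ! ≤ v + 4` (`sr_gap`).
(1) `u = S !`: `S ! ∣ w !`, so `v ≠ w !` by `hd`; `(g S)! ∣ (g w)!` and `g v = (g w)! ± |v - w !|` with `0 < |v - w !| ≤ 4 < 9 ≤ g S ≤ (g S)!`: not divisible.
(2) `u ≠ S !`: the elements `S, S !, u, w, w !` of `K` are different (`u ≠ w !`, else `SameRun u v`; `u ≠ S` as `S < w < u`; `w ≠ S !`), so `K` consists of them (`five_all`), and `v = w !` (`v > u > w > S`, `v ≠ S !` since `v` is not in the run of `u`). `u = S ! + 1` or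
`u + 1 = S !`: otherwise the neighbour `S ! ± 1` of `S !` towards `u` is in `K`, in the run of `u`, so it is none of `S` (then `S` is in the run of `S !`: `Src.lt` contradiction), `S !`, `u`, `w`, `w !` (these would be in the run of `u`). `w = S + 1`: otherwise
`{S, S !, u}` is closed under `Adj` in `K` (cases; `fac_gap`: `2 * x ≤ x !`; neighbours are in the same run; `Nat.factorial_inj`), so it is `K` (`h.conn`), but `w` is not in it. Then `g w = g S + 1` (`sh_succ`), with `X = g S ≥ 9`: `g u = X ! ± 1`, `g v = (X + 1)! = (X + 1) * X !`.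
`X ! ± 1` is coprime to `X !`, so `g u ∣ g v` would give `X ! ± 1 ∣ X + 1`, but `X ! - 1 > X + 1`. -/

set_option autoImplicit false

namespace Pool.Agent.LibFSN

open Nat Finset

private theorem A5_near {c Y v gv f d : ℕ} (hc : c ∣ Y) (hv : v ≤ f + d) (hf : f ≤ v + d)
    (h : gv + f = v + Y) (hvf : v ≠ f) (hcd : d < c) : ¬ c ∣ gv := by
  intro hd
  rcases Nat.lt_or_ge v f with h1 | h1
  · have h2 : Y = gv + (f - v) := by omega
    rw [h2] at hc
    have h3 := Nat.le_of_dvd (by omega) ((Nat.dvd_add_right hd).1 hc)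
    omega
  · have h2 : gv = Y + (v - f) := by omega
    rw [h2] at hd
    have h3 := Nat.le_of_dvd (by omega) ((Nat.dvd_add_right hc).1 hd)
    omega

private theorem A5_coprime {X gu : ℕ} (hX : 9 ≤ X) (h : gu = X ! + 1 ∨ gu + 1 = X !) :
    ¬ gu ∣ (X + 1)! := by
  intro hd
  have hf := fac_gap (u := X) (by omega)
  have hco : Nat.Coprime gu (X !) := by
    rcases h with rfl | h
    · exact Nat.coprime_self_add_left.2 (Nat.coprime_one_left _)
    · rw [← h]
      exact Nat.coprime_self_add_right.2 (Nat.coprime_one_right _)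
  rw [Nat.factorial_succ] at hd
  have h1 := Nat.le_of_dvd (by omega) (hco.dvd_of_dvd_mul_right hd)
  omega

theorem cross_test {K : Finset ℕ} (h : Cp K) {b : ℕ} (hb : 9 ≤ b) {w u v : ℕ} (hw : w ∈ K)
    (hwf : w ! ∈ K) (hu : u ∈ K) (hv : SameRun K (w !) v) (hwu : w < u) (huv : u < v)
    (h1 : ¬ SameRun K w u) (h2 : ¬ SameRun K u v) (hd : ¬ u ∣ v) :
    ¬ (u + sh K b u ∣ v + sh K b v) := by
  classical
  have nr := h.nr
  have hs : ∃ S, Src K S u := by
    by_contra hs
    rcases root_le nr h.conn hu hs w hw with h3 | h3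
    · omega
    · exact h1 (sr_symm h3)
  obtain ⟨S, hS, hSf, hSu⟩ := hs
  have hw3 := h.three w hw
  have hS3 := h.three S hS
  have hSw : S ≠ w := by
    rintro rfl
    exact h2 (sr_trans (sr_symm hSu) hv)
  have hSlt : S < w := by
    by_contra hc
    have h3 : w ! < S ! := (Nat.factorial_lt (by omega)).2 (by omega)
    have h4 := run_lt hv hSu h3 fun h4 => h2 (sr_symm (sr_trans (sr_symm hv) (sr_trans h4 hSu)))
    omega
  have hff : S ! < w ! := (Nat.factorial_lt (by omega)).2 hSlt
  have hSfw : S ! ≠ w := fun h3 => h1 (h3 ▸ hSu)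
  have gS := fac_gap hS3
  have gw := fac_gap hw3
  have v1 := sr_gap h.card hv
  have v2 := sr_gap h.card (sr_symm hv)
  have e1 := sh_fac nr b hS hSf
  have e2 := sh_fac nr b hw hwf
  rw [sh_run nr b hSu] at e1
  rw [sh_run nr b hv] at e2
  have m1 := sh_mono nr h.conn b hS hw hSlt
  have m2 := le_sh nr b S hS
  have hX : 9 ≤ S + sh K b S := by omega
  have hXf := fac_gap (u := S + sh K b S) (by omega)
  by_cases huS : (u = S !)
  · have h3 : v ≠ w ! := by
      rintro rfl
      exact hd (huS ▸ Nat.factorial_dvd_factorial hSlt.le)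
    have h4 : u + sh K b u = (S + sh K b S)! := by omega
    rw [h4]
    exact A5_near (Nat.factorial_dvd_factorial (n := w + sh K b w) (by omega)) v1 v2 (by omega) h3
      (by omega)
  have huw : u ≠ w ! := by
    rintro rfl
    exact h2 hv
  have hall := five_all h.card hS hSf hu hw hwf (by omega)
  have hvw : v = w ! := by
    rcases hall v (sr_right hv) with h3 | h3 | h3 | h3 | h3
    · omega
    · exact absurd (sr_symm (h3 ▸ hSu)) h2
    · omega
    · omega
    · exact h3
  subst hvw
  have hu1 : u = S ! + 1 ∨ u + 1 = S ! := by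
    rcases Nat.lt_or_ge (S !) u with h3 | h3
    · left
      by_contra hne
      have h4 : ∀ z, S ! ≤ z → z ≤ u → z ∈ K := fun z z1 z2 => sr_mem hSu z1 z2
      rcases hall (S ! + 1) (h4 _ (by omega) (by omega)) with h5 | h5 | h5 | h5 | h5
      · omega
      · omega
      · omega
      · exact h1 (sr_of (fun z z1 z2 => h4 z (by omega) z2) (by omega))
      · omega
    · right
      by_contra hne
      have h4 : ∀ z, u ≤ z → z ≤ S ! → z ∈ K := fun z z1 z2 => sr_mem (sr_symm hSu) z1 z2
      rcases hall ((S !) - 1) (h4 _ (by omega) (by omega)) with h5 | h5 | h5 | h5 | h5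
      · omega
      · omega
      · omega
      · omega
      · omega
  have hw1 : w = S + 1 := by
    by_contra hne
    have hW : ({S, S !, u} : Finset ℕ) = K := by
      apply h.conn
      · intro z hz
        simp only [mem_insert, mem_singleton] at hz
        rcases hz with rfl | rfl | rfl <;> assumption
      · exact ⟨S, by simp⟩
      · intro a ha z hz hadj
        have hfz := Nat.self_le_factorial (w !)
        have hfS := fac_gap (u := S !) (by omega)
        have hfu := Nat.self_le_factorial u
        have k1 : S ! + 1 ≠ w := fun h3 => h1 (sr_trans (sr_symm (h3 ▸ sr_succ hSf (h3 ▸ hw))) hSu)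
        have k2 : w + 1 ≠ S ! := fun h3 => h1 (sr_trans (h3 ▸ sr_succ hw (h3 ▸ hSf)) hSu)
        have k3 : w + 1 ≠ u := fun h3 => h1 (h3 ▸ sr_succ hw (h3 ▸ hu))
        have k4 : u + 1 ≠ w ! := fun h3 => h2 (h3 ▸ sr_succ hu (h3 ▸ hwf))
        have k5 : S ! + 1 ≠ w ! := fun h3 =>
          h2 (sr_trans (sr_symm hSu) (h3 ▸ sr_succ hSf (h3 ▸ hwf)))
        have k6 : (S !)! ≠ w ! := fun h3 => hSfw ((Nat.factorial_inj (by omega)).1 h3)
        have k7 : u ! ≠ w ! := fun h3 => by
          have := (Nat.factorial_inj (by omega)).1 h3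
          omega
        have hz' : z = S ∨ z = S ! ∨ z = u := by
          by_contra hcon
          simp only [mem_insert, mem_singleton] at ha
          rcases hall z hz with h5 | h5 | h5 | h5 | h5
          · exact hcon (Or.inl h5)
          · exact hcon (Or.inr (Or.inl h5))
          · exact hcon (Or.inr (Or.inr h5))
          · subst h5
            rcases ha with rfl | rfl | rfl <;> rcases hadj with h6 | h6 | h6 | h6 <;> omega
          · subst h5
            rcases ha with rfl | rfl | rfl <;> rcases hadj with h6 | h6 | h6 | h6 <;> omega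
        simp only [mem_insert, mem_singleton]
        exact hz'
    have h3 : w ∈ ({S, S !, u} : Finset ℕ) := hW ▸ hw
    simp only [mem_insert, mem_singleton] at h3
    omega
  have e3 : sh K b w = sh K b S := by
    rw [hw1]
    exact sh_succ nr b hS (hw1 ▸ hw)
  have h5 : w ! + sh K b (w !) = (S + sh K b S + 1)! := by
    rw [e2, e3, hw1]
    congr 1
    omega
  rw [h5]
  exact A5_coprime hX (by omega)

end Pool.Agent.LibFSN
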