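import Pool.Agent.LibFS32.A4
import Pool.Agent.LibFS32.A5

/-! Row A6 (MEDIUM). All non-divisibilities inside a component are preserved.
PLAN. `g x = x + sh K b x`, `9 ≤ sh K b x` (`le_sh`), `g` is strictly increasing on `K` (`sh_mono`). `u = v`: `hd` is false. `v < u`: `0 < g v < g u`, `Nat.le_of_dvd`. `u < v`, `SameRun K u v`: `sh_run`, so `g v - g u = v - u ≤ 4` (`sr_gap`) and `> 0`: `Nat.dvd_sub`.
`u < v`, different runs: `v` has a source (otherwise `root_le` for `v`: `v < u` or same run). `Src K w v`: `g v + w ! = v + (g w)!` (`sh_run` for `w !`, `v`, `sh_fac`). `v ≤ w ! + 3`, `w ! ≤ v + 3`: the interval between `w !` and `v` and `w` are in `K`, `w` is not in it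
(`Src.lt`), card `≤ 5`. (a) `u ≤ w`: `g u ≤ g w`, `g u ∣ (g w)!`; `v ≠ w !` (otherwise `u ∣ v`), so `g u ∣ g v` gives `g u ∣ |v - w !| ≤ 3`. (b) `w < u`, `SameRun K w u`: `u = w + e`, all `w + i`, `i ≤ e`, in `K`; these `e + 1` elements and the `|v - w !| + 1` elements
between `w !` and `v` are different (different runs), so `e + |v - w !| ≤ 3`; `4 ≤ w` (`Cp.arg_four`); `run_test` with `x = g w` (`g u = g w + e` by `sh_run`); its hypothesis `hc` from `TestOK` (`v ∈ K`). (c) otherwise `cross_test`. -/

set_option autoImplicit false

namespace Pool.Agent.LibFSN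

open Nat Finset

private theorem A6_two {K : Finset ℕ} (h5 : K.card ≤ 5) {a c p q : ℕ} (h : SameRun K a c)
    (h' : SameRun K p q) (hpq : p ≤ q) (h1 : q < a) (h2 : q < c) :
    a + (q - p) ≤ c + 3 ∧ c + (q - p) ≤ a + 3 := by
  have hsub : Icc p q ∪ Icc (min a c) (max a c) ⊆ K := by
    intro z hz
    rcases mem_union.1 hz with hz | hz
    · rw [mem_Icc] at hz
      exact sr_mem h' hz.1 hz.2
    · rw [mem_Icc] at hz
      exact h z hz.1 hz.2
  have hdis : Disjoint (Icc p q) (Icc (min a c) (max a c)) := by
    rw [Finset.disjoint_left]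
    intro z hz hz'
    rw [mem_Icc] at hz hz'
    have := lt_min h1 h2
    omega
  have hc := card_le_card hsub
  rw [card_union_of_disjoint hdis, Nat.card_Icc, Nat.card_Icc] at hc
  rcases le_total a c with hac | hac
  · rw [min_eq_left hac, max_eq_right hac] at hc
    omega
  · rw [min_eq_right hac, max_eq_left hac] at hc
    omega

theorem pair_ok {K : Finset ℕ} (h : Cp K) {b : ℕ} (hb : 9 ≤ b)
    (ht : ∀ w ∈ K, w ! ∈ K → ∀ e, 1 ≤ e → (∀ i, i ≤ e → w + i ∈ K) → TestOK K b w e)
    {u v : ℕ} (hu : u ∈ K) (hv : v ∈ K) (hd : ¬ u ∣ v) : ¬ (u + sh K b u ∣ v + sh K b v) := by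
  have nr := h.nr
  have hge : ∀ x ∈ K, 9 ≤ x + sh K b x := fun x hx => by
    have := le_sh nr b x hx
    omega
  rcases lt_trichotomy u v with huv | rfl | huv
  · by_cases hsr : SameRun K u v
    · intro hdv
      have e1 := sh_run nr b hsr
      have e2 := sr_gap h.card hsr
      have e3 := hge u hu
      have e4 := Nat.dvd_sub hdv (dvd_refl (u + sh K b u))
      have e5 : v + sh K b v - (u + sh K b u) = v - u := by omega
      rw [e5] at e4
      have := Nat.le_of_dvd (by omega) e4
      omega
    · have hsrc : ∃ w, Src K w v := by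
        by_contra hs
        rcases root_le nr h.conn hv hs u hu with h1 | h1
        · omega
        · exact hsr (sr_symm h1)
      obtain ⟨w, hw⟩ := hsrc
      have hwK := hw.1
      have hwf := hw.2.1
      have hwv := hw.2.2
      have hlt := hw.lt nr
      have h3 := h.three w hwK
      have hgap := fac_gap h3
      have e0 := sh_run nr b hwv
      have e1 := sh_fac nr b hwK hwf
      have egv : v + sh K b v + w ! = v + (w + sh K b w)! := by omega
      have hgu := hge u hu
      have hgw := hge w hwK
      rcases le_or_gt u w with huw | huw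
      · -- (a)
        obtain ⟨g1, g2⟩ := A6_two h.card hwv (sr_self hwK) le_rfl (by omega) hlt
        have h3u := h.three u hu
        have hle : u + sh K b u ≤ w + sh K b w := by
          rcases huw.eq_or_lt with rfl | hlt'
          · exact le_rfl
          · have := sh_mono nr h.conn b hu hwK hlt'
            omega
        have d0 : u ∣ w ! := Nat.dvd_factorial (by omega) huw
        have d1 : u + sh K b u ∣ (w + sh K b w)! := Nat.dvd_factorial (by omega) hle
        have hne : v ≠ w ! := fun e => hd (e ▸ d0)
        intro hdv
        rcases lt_or_gt_of_ne hne with hlt' | hlt'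
        · have e4 := Nat.dvd_sub d1 hdv
          have e5 : (w + sh K b w)! - (v + sh K b v) = (w !) - v := by omega
          rw [e5] at e4
          have := Nat.le_of_dvd (by omega) e4
          omega
        · have e4 := Nat.dvd_sub hdv d1
          have e5 : v + sh K b v - (w + sh K b w)! = v - w ! := by omega
          rw [e5] at e4
          have := Nat.le_of_dvd (by omega) e4
          omega
      · by_cases hwu : SameRun K w u
        · -- (b)
          have huf : u < w ! := by
            by_contra hc
            apply hsr
            exact sr_of (fun z h1 h2 => sr_mem hwv (by omega) h2) huv.le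
          obtain ⟨g1, g2⟩ := A6_two h.card hwv hwu huw.le huf huv
          obtain ⟨e, rfl⟩ := Nat.exists_eq_add_of_le huw.le
          have hrun : ∀ i, i ≤ e → w + i ∈ K := fun i hi => sr_mem hwu (by omega) (by omega)
          have h4 := h.arg_four hwK hwf (hrun 1 (by omega))
          have hT := ht w hwK hwf e (by omega) hrun
          have esh := sh_run nr b hwu
          have hxe : w + e + sh K b (w + e) = w + sh K b w + e := by omega
          rw [hxe]
          refine run_test h4 hgw (by omega) egv (by omega) (by omega) hT.1 ?_ hd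
          intro p1 p2
          obtain ⟨q1, q2⟩ := hT.2 p1 p2
          refine ⟨fun he hv' => q1 he (hv' ▸ hv), fun he hv' => q2 he ?_⟩
          have : (w !) - 1 = v := by omega
          rw [this]
          exact hv
        · exact cross_test h hb hwK hwf hu hwv huw huv hwu hsr hd
  · exact absurd dvd_rfl hd
  · intro hdv
    have e1 := sh_mono nr h.conn b hv hu huv
    have e2 := hge v hv
    have := Nat.le_of_dvd (by omega) hdv
    omega

end Pool.Agent.LibFSN
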