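import Pool.Agent.LibFS32.A6

/-! Row A7 (MEDIUM). Shifting a component `K` of `V` and fixing the rest.
PLAN. `Good V N` with `P a := a.1 ∈ V ∧ a.2 = g a.1`, `g u = if u ∈ K then u + sh K b u else u` (compare `free_run` in `Pool/Agent/LibFSN/Classify.lean`, and `plus_bound` in `Pool/Agent/LibFSN/Plus.lean` for the successor and factorial relations: `sh_succ`,
`sh_fac`; relations between `K` and `V \ K` do not occur by `hcl` (use `Adj.symm`)). Non-divisibility `u ∤ v`: both in `K`: `pair_ok`; `u ∈ K`, `v ∉ K`: `0 < v < b ≤ u + sh K b u` (`hbD`, `le_sh`); `u ∉ K`, `v ∈ K`: `hD`; both not in `K`: trivial. An element of `K`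
goes to `≥ b ≥ N`. -/

set_option autoImplicit false

namespace Pool.Agent.LibFSN

open Nat Finset

theorem good_of_shift {V K : Finset ℕ} (hKV : K ⊆ V) (hcl : ∀ u ∈ K, ∀ v ∈ V, Adj u v → v ∈ K)
    (h : Cp K) (hne : K.Nonempty) (hpos : ∀ u ∈ V, 1 ≤ u) {b N : ℕ} (hb : 9 ≤ b) (hN : N ≤ b)
    (hbD : ∀ d ∈ V, d ∉ K → d < b)
    (hD : ∀ d ∈ V, d ∉ K → ∀ u ∈ K, ¬ d ∣ u → ¬ d ∣ u + sh K b u)
    (ht : ∀ w ∈ K, w ! ∈ K → ∀ e, 1 ≤ e → (∀ i, i ≤ e → w + i ∈ K) → TestOK K b w e) :
    Good V N := by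
  classical
  have nr := h.nr
  let g : ℕ → ℕ := fun u => if u ∈ K then u + sh K b u else u
  have g1 : ∀ {u}, u ∈ K → g u = u + sh K b u := fun h => if_pos h
  have g2 : ∀ {u}, u ∉ K → g u = u := fun h => if_neg h
  refine ⟨fun a => a.1 ∈ V ∧ a.2 = g a.1, ?_, ?_, fun u hu => ⟨g u, hu, rfl⟩, ?_⟩
  · rintro ⟨u, x⟩ ⟨v, y⟩ ⟨hu, hx⟩ ⟨hv, hy⟩
    simp only at hu hx hv hy
    subst hx hy
    refine ⟨fun hh => ?_, fun hh => ?_, fun hh => ?_, fun hh => ?_⟩
    · simp only at hh ⊢
      rw [hh]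
    · simp only at hh ⊢
      by_cases huK : u ∈ K
      · have hvK := hcl u huK v hv (Or.inl hh)
        subst hh
        rw [g1 huK, g1 hvK, sh_succ nr b huK hvK]
        omega
      · have hvK : v ∉ K := fun hvK => huK (hcl v hvK u hu (Or.inr (Or.inl hh)))
        rw [g2 huK, g2 hvK]
        exact hh
    · simp only at hh ⊢
      by_cases huK : u ∈ K
      · have hvK := hcl u huK v hv (Or.inr (Or.inr (Or.inl hh)))
        subst hh
        rw [g1 huK, g1 hvK, sh_fac nr b huK hvK]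
      · have hvK : v ∉ K := fun hvK => huK (hcl v hvK u hu (Or.inr (Or.inr (Or.inr hh))))
        rw [g2 huK, g2 hvK]
        exact hh
    · simp only at hh ⊢
      by_cases huK : u ∈ K
      · by_cases hvK : v ∈ K
        · rw [g1 huK, g1 hvK]
          exact pair_ok h hb ht huK hvK hh
        · rw [g1 huK, g2 hvK]
          intro hd
          have h1 := hbD v hv hvK
          have h2 := le_sh nr b u huK
          have h3 := hpos v hv
          have := Nat.le_of_dvd (by omega) hd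
          omega
      · by_cases hvK : v ∈ K
        · rw [g2 huK, g1 hvK]
          exact hD u hu huK v hvK hh
        · rw [g2 huK, g2 hvK]
          exact hh
  · rintro ⟨u, x⟩ ⟨hu, hx⟩
    simp only at hu hx
    subst hx
    have := hpos u hu
    simp only [g]
    split_ifs <;> omega
  · obtain ⟨u, hu⟩ := hne
    have h1 := le_sh nr b u hu
    exact ⟨u, hKV hu, g u, ⟨hKV hu, rfl⟩, by rw [g1 hu]; omega⟩

end Pool.Agent.LibFSN
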