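import Pool.Agent.LibFS32.Base

/-! Row B1 (SHORT/MEDIUM). The tests at an argument `w` in the run of the least argument `T`.
PLAN. `sh K b w = sh K b T = b` (`sh_run h.cp.nr`, `h.sh_T`), `T ≤ w`. `w = T`: `T < T !` and `T ! > T + 4`? (if `T ≥ 4`: `fac_six`; `T ≥ 4` by `Cp.arg_four` since `T + 1 ∈ K`). `e = 1`: `hR.r1`; `e = 2`: `hR.r2` (`T + 1, T + 2 ∈ K`); `e = 3`: `hR.r3` (the second part of `TestOK` is empty); `e ≥ 4`:
`T, ..., T + 4, T !` are six elements (`six_false`). `w = T + i`, `i ≥ 1`: `w !` and `T !` are different and different from `T, ..., w + e` (`T ! ≥ 6 T`, `w ! ≥ 2 T !`), so `i = e = 1` (six elements otherwise), `hR.r2` gives the first part; if `e = 1` and `w ! + 1 ∈ K`: six elements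
`T, T + 1, T + 2, T !, w !, w ! + 1`. (For `e ≥ 5` use only the elements `w + i`, `i ≤ 4`.) -/

set_option autoImplicit false

namespace Pool.Agent.LibFSN

open Nat Finset

theorem tests0 {V K : Finset ℕ} {T : ℕ} (h : Sit V K T) {b : ℕ} (hR : Rq K T (T + b)) {w : ℕ}
    (hw : w ∈ K) (hwf : w ! ∈ K) (hr : SameRun K T w) {e : ℕ} (he : 1 ≤ e)
    (hrun : ∀ i, i ≤ e → w + i ∈ K) : TestOK K b w e := by
  have hnr : ¬ Rigid K := h.cp.nr
  have hTK : T ∈ K := h.mem
  have hTf : T ! ∈ K := h.fac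
  have h5 : K.card ≤ 5 := h.cp.card
  have hTw : T ≤ w := h.min w hw hwf
  have hsh : sh K b w = b := by
    rw [← sh_run hnr b hr]
    exact h.sh_T b
  have hw1 : w + 1 ∈ K := hrun 1 he
  have hT1 : T + 1 ∈ K := by
    rcases hTw.eq_or_lt with h1 | h1
    · rw [h1]
      exact hw1
    · exact sr_mem hr (by omega) h1
  have hT4 : 4 ≤ T := h.cp.arg_four hTK hTf hT1
  have hT6 : 6 * T ≤ T ! := fac_six hT4
  unfold TestOK
  rw [hsh]
  rcases hTw.eq_or_lt with hEq | hLt
  · subst hEq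
    rcases Nat.lt_or_ge e 4 with he4 | he4
    · have hcase : e = 1 ∨ e = 2 ∨ e = 3 := by omega
      rcases hcase with rfl | rfl | rfl
      · have h1 := hR.r1 hT1
        refine ⟨h1.1, fun hnp hp => ⟨fun _ hc => h1.2 hc hnp hp, fun h2 => ?_⟩⟩
        omega
      · have h1 := hR.r2 hT1 (hrun 2 le_rfl)
        refine ⟨h1.1, fun hnp hp => ⟨fun h2 => ?_, fun _ hc => h1.2 hc hnp hp⟩⟩
        omega
      · have h1 := hR.r3 hT1 (hrun 2 (by omega)) (hrun 3 le_rfl)
        refine ⟨h1, fun _ _ => ⟨fun h2 => ?_, fun h2 => ?_⟩⟩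
        · omega
        · omega
    · exfalso
      exact six_false h5 hTK hT1 (hrun 2 (by omega)) (hrun 3 (by omega)) (hrun 4 (by omega)) hTf
        (by omega)
  · have hf2 : 2 * T ! ≤ w ! := fac_gap2 (by omega) hLt
    have hT2 : T + 2 ∈ K := by
      rcases Nat.lt_or_ge (T + 1) w with h1 | h1
      · exact sr_mem hr (by omega) (by omega)
      · rwa [show T + 2 = w + 1 by omega]
    by_cases hc : w = T + 1 ∧ e = 1
    · obtain ⟨rfl, rfl⟩ := hc
      have h1 := hR.r2 hT1 hT2
      refine ⟨fun hp => ?_, fun _ _ => ⟨fun _ hc => ?_, fun h2 => ?_⟩⟩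
      · have h3 := h1.1 (by rwa [show T + 2 = T + 1 + 1 by omega])
        rwa [show T + 1 + b + 1 = T + b + 2 by omega]
      · exact six_false h5 hTK hT1 hT2 hTf hwf hc (by omega)
      · omega
    · exfalso
      have hT3 : T + 3 ∈ K := by
        rcases Nat.lt_or_ge (T + 2) w with h1 | h1
        · exact sr_mem hr (by omega) (by omega)
        · rcases Nat.lt_or_ge (T + 1) w with h2 | h2
          · rwa [show T + 3 = w + 1 by omega]
          · rw [show T + 3 = w + 2 by omega]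
            exact hrun 2 (by omega)
      exact six_false h5 hTK hT1 hT2 hT3 hTf hwf (by omega)

end Pool.Agent.LibFSN
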