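import Pool.Agent.LibFS32.Base

/-! Row B2 (MEDIUM). The tests at an argument `w` in the run of `T !`.
PLAN. Put `X = T + b`. `sh K b w = sh K b (T !)` (`sh_run`) and `T ! + sh K b (T !) = X !` (`sh_fac`, `h.sh_T`), so `w + sh K b w + T ! = w + X !`. `T < w` (`Src.lt`), so `w ! > T ! + 5`. `X ≥ 12`, `X !` is even, `X ! + 2` is even. All numbers between `w` and `T !` are in `K` (`hs.2.2`).
Cases (in each case the elements `T, T !, w, w !` and the listed ones are different, use `six_false`; `T ! ≥ 2 T`, `w ! ≥ 2 w`, and if `T = 3` then `4 ∉ K`):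
`w ≥ T ! + 2`: `T, T !, T ! + 1, w, w + 1, w !`: false. `w = T ! + 1`: `e = 1`: `w + e = T ! + 2` is even and not prime, the new value `X ! + 2` neither: both parts. `e ≥ 2`: `T, T !, w, w + 1, w + 2, w !`. `w = T !`: `e = 1`: first part `hR.s1`, second: if `w ! + 1 ∈ K` then `hR.s1'`
contradicts the primality of `X ! + 1`; `e = 2`: `T ! + 2`, `X ! + 2` not prime; `e ≥ 3`: six elements `T, T !, T ! + 1, T ! + 2, T ! + 3, w !`. `w + 1 = T !`: `e = 1`: `T !`, `X !` not prime; `e = 2`: `hR.s1` (second alternative); second part: `w ! - 1 ∈ K` gives six elements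
`T, w, w + 1, w + 2, w !, w ! - 1`; `e ≥ 3`: `T, w, w + 1, w + 2, w + 3, w !`. `w + 2 = T !`: `e = 1`: `hR.s2`, second part: `w ! + 1 ∈ K` gives six elements `T, w, w + 1, w + 2, w !, w ! + 1`; `e = 2`: `T !`, `X !` not prime; `e ≥ 3`: six. `w + 3 ≤ T !`: `T, w, w + 1, w + 2, T !, w !` are six. -/

set_option autoImplicit false

namespace Pool.Agent.LibFSN

open Nat Finset

private theorem B2_np {n : ℕ} (h2 : n % 2 = 0) (h3 : 3 ≤ n) : ¬ n.Prime := by
  intro hp
  rcases hp.eq_two_or_odd with h | h <;> omega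

theorem tests1 {V K : Finset ℕ} {T : ℕ} (h : Sit V K T) {b : ℕ} (hb : 9 ≤ b)
    (hR : Rq K T (T + b)) {w : ℕ} (hw : w ∈ K) (hwf : w ! ∈ K) (hs : Src K T w) {e : ℕ}
    (he : 1 ≤ e) (hrun : ∀ i, i ≤ e → w + i ∈ K) : TestOK K b w e := by
  have hnr := h.cp.nr
  have h5 := h.cp.card
  have hT3 : 3 ≤ T := h.cp.three T h.mem
  have hTw : T < w := hs.lt hnr
  have g1 : 2 * T ≤ T ! := fac_gap hT3
  have g2 : 2 * T ! ≤ w ! := fac_gap2 hT3 hTw
  have g3 : 2 * w ≤ w ! := fac_gap (by omega)
  have hsh : w + sh K b w + T ! = w + (T + b)! := by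
    rw [sh_run hnr b (sr_symm hs.2.2)]
    have h1 := sh_fac hnr b h.mem h.fac
    rw [h.sh_T b] at h1
    omega
  have hX2 : (T + b)! % 2 = 0 := fac_even (by omega)
  have hX12 : T + b ≤ (T + b)! := Nat.self_le_factorial _
  have hF2 : T ! % 2 = 0 := fac_even (by omega)
  have hmem : ∀ z, min (T !) w ≤ z → z ≤ max (T !) w → z ∈ K := hs.2.2
  have hT := h.mem
  have hF := h.fac
  have hw1 := hrun 1 he
  -- the case of even numbers
  have hev : ∀ d, w + e = T ! + d → d % 2 = 0 → TestOK K b w e := by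
    intro d hd hd2
    have h1 : ¬ (w + e).Prime := B2_np (by omega) (by omega)
    have h2 : ¬ (w + sh K b w + e).Prime := B2_np (by omega) (by omega)
    exact ⟨fun h3 => absurd h3 h1, fun _ h3 => absurd h3 h2⟩
  by_cases c1 : T ! + 2 ≤ w
  · have m1 : T ! + 1 ∈ K := hmem _ (by omega) (by omega)
    exact (six_false h5 hT hF m1 hw hw1 hwf (by omega)).elim
  by_cases c2 : w = T ! + 1
  · rcases he.eq_or_lt with e1 | e1
    · exact hev 2 (by omega) rfl
    · have m2 := hrun 2 e1
      exact (six_false h5 hT hF hw hw1 m2 hwf (by omega)).elim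
  by_cases c3 : w = (T !)
  · rcases he.eq_or_lt with e1 | e1
    · subst e1
      have m1 : T ! + 1 ∈ K := by
        rw [← c3]
        exact hw1
      have m2 : (T !)! ∈ K := by
        rw [← c3]
        exact hwf
      have q1 : w + sh K b w + 1 = (T + b)! + 1 := by omega
      refine ⟨fun h1 => ?_, fun h1 h2 => ⟨fun _ h3 => ?_, fun h3 => by omega⟩⟩
      · rw [q1]
        rw [c3] at h1
        exact hR.s1 m1 (Or.inl m2) h1
      · rw [q1] at h2
        rw [c3] at h1 h3
        exact hR.s1' m1 m2 h3 h1 h2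
    · rcases (show 2 ≤ e from e1).eq_or_lt with e2 | e2
      · exact hev 2 (by omega) rfl
      · have m2 := hrun 2 (by omega)
        have m3 := hrun 3 e2
        exact (six_false h5 hT hw hw1 m2 m3 hwf (by omega)).elim
  by_cases c4 : w + 1 = (T !)
  · rcases he.eq_or_lt with e1 | e1
    · exact hev 0 (by omega) rfl
    · have m2 := hrun 2 e1
      rcases (show 2 ≤ e from e1).eq_or_lt with e2 | e2
      · subst e2
        have q0 : w = (T !) - 1 := by omega
        have m1 : T ! + 1 ∈ K := by
          rw [← c4]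
          exact m2
        have m3 : (T !) - 1 ∈ K := by
          rw [← q0]
          exact hw
        have m4 : ((T !) - 1)! ∈ K := by
          rw [← q0]
          exact hwf
        have q1 : w + sh K b w + 2 = (T + b)! + 1 := by omega
        have q2 : w + 2 = T ! + 1 := by omega
        refine ⟨fun h1 => ?_, fun h1 h2 => ⟨fun h3 => by omega, fun _ h3 => ?_⟩⟩
        · rw [q1]
          rw [q2] at h1
          exact hR.s1 m1 (Or.inr ⟨m3, m4⟩) h1
        · exact six_false h5 hT hw hw1 m2 hwf h3 (by omega)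
      · have m3 := hrun 3 e2
        exact (six_false h5 hT hw hw1 m2 m3 hwf (by omega)).elim
  by_cases c5 : w + 2 = (T !)
  · have m2 : w + 2 ∈ K := by
      rw [c5]
      exact hF
    rcases he.eq_or_lt with e1 | e1
    · subst e1
      have q0 : w = (T !) - 2 := by omega
      have q2 : w + 1 = (T !) - 1 := by omega
      have m3 : (T !) - 1 ∈ K := by
        rw [← q2]
        exact hw1
      have m5 : (T !) - 2 ∈ K := by
        rw [← q0]
        exact hw
      have m4 : ((T !) - 2)! ∈ K := by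
        rw [← q0]
        exact hwf
      have q1 : w + sh K b w + 1 = ((T + b)!) - 1 := by omega
      refine ⟨fun h1 => ?_, fun h1 h2 => ⟨fun _ h3 => ?_, fun h3 => by omega⟩⟩
      · rw [q1]
        rw [q2] at h1
        exact hR.s2 m3 m5 m4 h1
      · exact six_false h5 hT hw hw1 m2 hwf h3 (by omega)
    · rcases (show 2 ≤ e from e1).eq_or_lt with e2 | e2
      · exact hev 0 (by omega) rfl
      · have m3 := hrun 3 e2
        exact (six_false h5 hT hw hw1 m2 m3 hwf (by omega)).elim
  · have m2 : w + 2 ∈ K := hmem _ (by omega) (by omega)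
    exact (six_false h5 hT hw hw1 m2 hF hwf (by omega)).elim

end Pool.Agent.LibFSN
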