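import Pool.Agent.LibFS32.B1
import Pool.Agent.LibFS32.B2
import Pool.Agent.LibFS32.A1
import Pool.Agent.LibFS32.A7

/-! Row B3 (MEDIUM). All tests, and the conclusion.
PLAN. `tests2`: `Src K S w`, `S ≠ T`: `T < S` (`h.min`), `S < w` (`Src.lt`). The elements `T, S, S !, w !, T !`: `T ! < S ! < w !`, `w ≠ T` (`h.no_src`), `w ≠ T !` and in general `w` is not in the run of `T !` (`Src.unique` with `src_run (src_self ..)` would give `S = T`). If `S ≠ T !`: `T, T !, S, S !, w !`
are five different elements, so all of `K` (`five_all`), `w = S !`; then `w + 1 ∈ K` is none of them (`w + 1 = S ! + 1 < w !`): contradiction. So `S = T !` (`subst`), `K ∋ T, T !, S !, w !, w, w + 1`, where `S ! = (T !)!`. If `w = S !`: `T, T !, w, w + 1, w !` are different: `K`; so `e = 1`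
(`w + 2` would be a sixth), first part: `hR.s3`, with `w + sh K b w = (X !)!` (`sh_fac` twice), second part: `w ! + 1 ∈ K` is a sixth element. If `w ≠ S !`: `T, T !, w, S !, w !` are all of `K`, so `w + 1 = S !` (`w + 1 ∈ K`, it is larger than `w > S = T !`), `e = 1` (`w + 2 = S ! + 1` would be a sixth);
`w + 1 = S !` is not prime (even), and `w + sh K b w + 1 = (X !)!` (`sh_run` for `w`, `S !`) is not prime (even, `> 2`): both parts. `tests_ok`: if `w` has no source: `root_le` for `w` and `T` and for `T` and `w` gives `SameRun K T w`: `tests0`. If `Src K S w`: `S = T`: `tests1`, else `tests2`.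
`good_of_rq`: `good_of_shift` with `tests_ok`. -/

set_option autoImplicit false

namespace Pool.Agent.LibFSN

open Nat Finset

private theorem B3_not_prime {m : ℕ} (hm : 3 ≤ m) : ¬ (m !).Prime := by
  intro hp
  have h1 : 2 ∣ m ! := Nat.dvd_factorial (by norm_num) (by omega)
  have h2 := (Nat.prime_dvd_prime_iff_eq Nat.prime_two hp).1 h1
  have h3 := fac_gap hm
  omega

theorem tests2 {V K : Finset ℕ} {T : ℕ} (h : Sit V K T) {b : ℕ} (hb : 9 ≤ b)
    (hR : Rq K T (T + b)) {w S : ℕ} (hw : w ∈ K) (hwf : w ! ∈ K) (hs : Src K S w) (hS : S ≠ T)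
    {e : ℕ} (he : 1 ≤ e) (hrun : ∀ i, i ≤ e → w + i ∈ K) : TestOK K b w e := by
  have hnr := h.cp.nr
  have h5 := h.cp.card
  have hT3 := h.cp.three T h.mem
  have hS3 := h.cp.three S hs.1
  have hTS : T < S := lt_of_le_of_ne (h.min S hs.1 hs.2.1) (Ne.symm hS)
  have hSw := hs.lt hnr
  have g1 := fac_gap hT3
  have g2 := fac_gap2 hT3 hTS
  have g3 := fac_gap2 hS3 hSw
  have g4 := fac_gap hS3
  have g5 : 6 * w ≤ w ! := fac_six (by omega)
  have hw1 : w + 1 ∈ K := hrun 1 he
  have hST : S = T ! := by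
    by_contra hne
    have hall := five_all h5 h.mem h.fac hs.1 hs.2.1 hwf (by omega)
    have hwT : w ≠ T ! := by
      intro hwe
      have h1 : Src K T w := by
        rw [hwe]
        exact src_self h.mem h.fac
      exact hS (Src.unique hnr hs h1)
    have h1 := hall w hw
    have h2 := hall (w + 1) hw1
    omega
  subst hST
  have hB := hs.2.1
  have hA6 : 6 * T ! ≤ (T !)! := fac_six (by omega)
  have hshT : (T + b)! = T ! + sh K b (T !) := by
    have h1 := sh_fac hnr b h.mem h.fac
    rw [h.sh_T] at h1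
    omega
  have hshA : ((T + b)!)! = (T !)! + sh K b ((T !)!) := by
    have h1 := sh_fac hnr b h.fac hB
    rw [← hshT] at h1
    omega
  by_cases hwB : w = (T !)!
  · have hall := five_all h5 h.mem h.fac hw hw1 hwf (by omega)
    have he1 : e = 1 := by
      by_contra hne
      have h1 := hall (w + 2) (hrun 2 (by omega))
      omega
    subst he1
    refine ⟨?_, ?_⟩
    · intro hp
      have h1 : w + sh K b w + 1 = ((T + b)!)! + 1 := by
        rw [hshA, hwB]
      rw [h1]
      apply hR.s3 hB
      · rw [← hwB]; exact hw1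
      · rw [← hwB]; exact hwf
      · rw [← hwB]; exact hp
    · intro _ _
      refine ⟨fun _ hmem => ?_, fun h2 => absurd h2 (by omega)⟩
      have h1 := hall (w ! + 1) hmem
      omega
  · have hall := five_all h5 h.mem h.fac hw hB hwf (by omega)
    have h1 := hall (w + 1) hw1
    have h2 : w + 1 = (T !)! := by omega
    have he1 : e = 1 := by
      by_contra hne
      have h3 := hall (w + 2) (hrun 2 (by omega))
      omega
    subst he1
    have hX : 3 ≤ (T + b)! := by
      have := Nat.self_le_factorial (T + b)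
      omega
    have h4 : w + sh K b w + 1 = ((T + b)!)! := by
      have h5' := sh_run hnr b hs.2.2
      rw [← h5', hshA]
      omega
    refine ⟨?_, ?_⟩
    · intro hp
      rw [h2] at hp
      exact absurd hp (B3_not_prime (by omega))
    · intro _ hp
      rw [h4] at hp
      exact absurd hp (B3_not_prime hX)

theorem tests_ok {V K : Finset ℕ} {T : ℕ} (h : Sit V K T) {b : ℕ} (hb : 9 ≤ b)
    (hR : Rq K T (T + b)) {w : ℕ} (hw : w ∈ K) (hwf : w ! ∈ K) {e : ℕ} (he : 1 ≤ e)
    (hrun : ∀ i, i ≤ e → w + i ∈ K) : TestOK K b w e := by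
  by_cases hsrc : ∃ S, Src K S w
  · obtain ⟨S, hs⟩ := hsrc
    by_cases hST : S = T
    · subst hST
      exact tests1 h hb hR hw hwf hs he hrun
    · exact tests2 h hb hR hw hwf hs hST he hrun
  · have hle := h.min w hw hwf
    rcases root_le h.cp.nr h.cp.conn hw hsrc T h.mem with h1 | h1
    · omega
    · exact tests0 h hR hw hwf (sr_symm h1) he hrun

theorem good_of_rq {V K : Finset ℕ} {T : ℕ} (h : Sit V K T) {b N : ℕ} (hb : 9 ≤ b) (hN : N ≤ b)
    (hbD : ∀ d ∈ V, d ∉ K → d < b)
    (hD : ∀ d ∈ V, d ∉ K → ∀ u ∈ K, ¬ d ∣ u → ¬ d ∣ u + sh K b u) (hR : Rq K T (T + b)) :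
    Good V N :=
  good_of_shift h.sub h.cl h.cp ⟨T, h.mem⟩ h.pos hb hN hbD hD
    (fun _ hw hwf _ he hrun => tests_ok h hb hR hw hwf he hrun)

end Pool.Agent.LibFSN
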