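import Pool.Agent.LibFSN.Prim

/-!
UpToFive (MP_38ee21_nt). Definitions and basic facts on runs.
-/

set_option autoImplicit false

namespace Pool.Agent.LibFSN

open Nat Finset

/-- `K` is connected: a nonempty subset closed under `Adj` within `K` is all of `K`. -/
def Conn (K : Finset ℕ) : Prop :=
  ∀ W ⊆ K, W.Nonempty → (∀ u ∈ W, ∀ v ∈ K, Adj u v → v ∈ W) → W = K

/-- The standing hypotheses on a component. -/
structure Cp (K : Finset ℕ) : Prop where
  conn : Conn K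
  card : K.card ≤ 5
  three : ∀ u ∈ K, 3 ≤ u
  four : 3 ∈ K → 4 ∈ K → 6 ∉ K

/-- The requirement for the tests `w + e ∤ w ! + j`. -/
def TestOK (K : Finset ℕ) (b w e : ℕ) : Prop :=
  ((w + e).Prime → (w + sh K b w + e).Prime) ∧
    (¬ (w + e).Prime → (w + sh K b w + e).Prime →
      (e = 1 → w ! + 1 ∉ K) ∧ (e = 2 → (w !) - 1 ∉ K))

/-- The requirements on the new value `X` of the least argument `T`. -/
structure Rq (K : Finset ℕ) (T X : ℕ) : Prop where
  r1 : T + 1 ∈ K → ((T + 1).Prime → (X + 1).Prime) ∧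
    (T ! + 1 ∈ K → ¬ (T + 1).Prime → ¬ (X + 1).Prime)
  r2 : T + 1 ∈ K → T + 2 ∈ K → ((T + 2).Prime → (X + 2).Prime) ∧
    ((T !) - 1 ∈ K → ¬ (T + 2).Prime → ¬ (X + 2).Prime)
  r3 : T + 1 ∈ K → T + 2 ∈ K → T + 3 ∈ K → (T + 3).Prime → (X + 3).Prime
  s1 : T ! + 1 ∈ K → ((T !)! ∈ K ∨ ((T !) - 1 ∈ K ∧ ((T !) - 1)! ∈ K)) → (T ! + 1).Prime →
    (X ! + 1).Prime
  s1' : T ! + 1 ∈ K → (T !)! ∈ K → (T !)! + 1 ∈ K → ¬ (T ! + 1).Prime → ¬ (X ! + 1).Prime
  s2 : (T !) - 1 ∈ K → (T !) - 2 ∈ K → ((T !) - 2)! ∈ K → ((T !) - 1).Prime → ((X !) - 1).Prime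
  s3 : (T !)! ∈ K → (T !)! + 1 ∈ K → ((T !)!)! ∈ K → ((T !)! + 1).Prime → ((X !)! + 1).Prime

/-- `K` is a component of `V` with least argument `T`. -/
structure Sit (V K : Finset ℕ) (T : ℕ) : Prop where
  sub : K ⊆ V
  cl : ∀ u ∈ K, ∀ v ∈ V, Adj u v → v ∈ K
  cp : Cp K
  pos : ∀ u ∈ V, 1 ≤ u
  card : V.card ≤ 5
  mem : T ∈ K
  fac : T ! ∈ K
  min : ∀ w ∈ K, w ! ∈ K → T ≤ w

theorem sr_left {K : Finset ℕ} {a b : ℕ} (h : SameRun K a b) : a ∈ K :=
  h a (min_le_left _ _) (le_max_left _ _)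

theorem sr_right {K : Finset ℕ} {a b : ℕ} (h : SameRun K a b) : b ∈ K :=
  h b (min_le_right _ _) (le_max_right _ _)

theorem sr_mem {K : Finset ℕ} {a b z : ℕ} (h : SameRun K a b) (h1 : a ≤ z) (h2 : z ≤ b) : z ∈ K :=
  h z ((min_le_left _ _).trans h1) (h2.trans (le_max_right _ _))

theorem sr_of {K : Finset ℕ} {a b : ℕ} (h : ∀ z, a ≤ z → z ≤ b → z ∈ K) (hab : a ≤ b) :
    SameRun K a b := by
  intro z h1 h2
  rw [min_eq_left hab] at h1
  rw [max_eq_right hab] at h2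
  exact h z h1 h2

theorem sr_self {K : Finset ℕ} {a : ℕ} (h : a ∈ K) : SameRun K a a :=
  sr_of (fun _ h1 h2 => le_antisymm h2 h1 ▸ h) le_rfl

theorem sr_symm {K : Finset ℕ} {a b : ℕ} (h : SameRun K a b) : SameRun K b a := by
  intro z h1 h2
  rw [min_comm] at h1
  rw [max_comm] at h2
  exact h z h1 h2

theorem sr_trans {K : Finset ℕ} {a b c : ℕ} (h : SameRun K a b) (h' : SameRun K b c) :
    SameRun K a c := by
  intro z h1 h2
  by_cases h3 : min a b ≤ z ∧ z ≤ max a b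
  · exact h z h3.1 h3.2
  · apply h' z
    · omega
    · omega

theorem sr_succ {K : Finset ℕ} {a : ℕ} (h : a ∈ K) (h' : a + 1 ∈ K) : SameRun K a (a + 1) :=
  sr_of (fun z h1 h2 => by
    rcases Nat.lt_or_ge a z with h3 | h3
    · rwa [show z = a + 1 by omega]
    · rwa [show z = a by omega]) (by omega)

/-- Different runs are ordered. -/
theorem run_lt {K : Finset ℕ} {a b c d : ℕ} (hab : SameRun K a b) (hcd : SameRun K c d)
    (hac : a < c) (hn : ¬ SameRun K a c) : b < d := by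
  by_contra hc
  apply hn
  refine sr_of (fun z h1 h2 => ?_) hac.le
  by_cases h3 : z ≤ b
  · exact hab z ((min_le_left _ _).trans h1) (h3.trans (le_max_right _ _))
  · exact hcd z ((min_le_right _ _).trans (by omega)) (h2.trans (le_max_left _ _))

theorem src_self {K : Finset ℕ} {w : ℕ} (h : w ∈ K) (h' : w ! ∈ K) : Src K w (w !) :=
  ⟨h, h', sr_self h'⟩

theorem src_run {K : Finset ℕ} {w a b : ℕ} (h : Src K w a) (hab : SameRun K a b) : Src K w b :=
  ⟨h.1, h.2.1, sr_trans h.2.2 hab⟩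

theorem sh_run {K : Finset ℕ} (hK : ¬ Rigid K) (b : ℕ) {x y : ℕ} (h : SameRun K x y) :
    sh K b x = sh K b y := by
  by_cases hs : ∃ w, Src K w x
  · obtain ⟨w, hw⟩ := hs
    rw [sh_of hK b hw, sh_of hK b (src_run hw h)]
  · rw [sh_not b hs, sh_not b]
    rintro ⟨w, hw⟩
    exact hs ⟨w, src_run hw (sr_symm h)⟩

theorem sr_gap {K : Finset ℕ} (h5 : K.card ≤ 5) {a b : ℕ} (h : SameRun K a b) : b ≤ a + 4 := by
  by_contra hc
  have h1 : (Icc a b).card ≤ K.card := card_le_card fun z hz => sr_mem h (mem_Icc.1 hz).1 (mem_Icc.1 hz).2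
  rw [Nat.card_Icc] at h1
  omega

theorem Cp.nr {K : Finset ℕ} (h : Cp K) : ¬ Rigid K := by
  rintro (⟨u, hu, h3⟩ | ⟨u, hu, h3, hz⟩ | ⟨u, hu, w, hw, h3, huw, hz⟩)
  · have := h.three u hu
    omega
  · rcases h3.eq_or_lt with rfl | h4
    · exact h.four (hz 3 (by norm_num) (by decide)) (hz 4 (by norm_num) (by decide))
        (hz 6 (by norm_num) (by decide))
    · have h1 := fac_six (u := u) h4
      have h2 : (Icc u (u !)).card ≤ K.card :=
        card_le_card fun z hz' => hz z (mem_Icc.1 hz').1 (mem_Icc.1 hz').2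
      rw [Nat.card_Icc] at h2
      have := h.card
      omega
  · have h1 := fac_gap h3
    have h4 := fac_gap2 h3 huw
    have h2 : (Icc (u !) (w !)).card ≤ K.card :=
      card_le_card fun z hz' => hz z (mem_Icc.1 hz').1 (mem_Icc.1 hz').2
    rw [Nat.card_Icc] at h2
    have := h.card
    omega

/-- An argument with a successor is at least `4`. -/
theorem Cp.arg_four {K : Finset ℕ} (h : Cp K) {w : ℕ} (hw : w ∈ K) (hwf : w ! ∈ K)
    (h1 : w + 1 ∈ K) : 4 ≤ w := by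
  have h3 := h.three w hw
  rcases h3.eq_or_lt with rfl | h4
  · exact absurd (show 6 ∈ K from hwf) (h.four hw h1)
  · exact h4

/-- The least argument has no source. -/
theorem Sit.no_src {V K : Finset ℕ} {T : ℕ} (h : Sit V K T) : ¬ ∃ w, Src K w T := by
  rintro ⟨w, hw⟩
  have h1 := hw.lt h.cp.nr
  have h2 := h.min w hw.1 hw.2.1
  omega

theorem Sit.sh_T {V K : Finset ℕ} {T : ℕ} (h : Sit V K T) (b : ℕ) : sh K b T = b :=
  sh_not b h.no_src

/-- Six different elements are too many. -/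
theorem six_false {K : Finset ℕ} (h5 : K.card ≤ 5) {a b c d e f : ℕ} (ha : a ∈ K) (hb : b ∈ K)
    (hc : c ∈ K) (hd : d ∈ K) (he : e ∈ K) (hf : f ∈ K)
    (h : a ≠ b ∧ a ≠ c ∧ a ≠ d ∧ a ≠ e ∧ a ≠ f ∧ b ≠ c ∧ b ≠ d ∧ b ≠ e ∧ b ≠ f ∧ c ≠ d ∧ c ≠ e ∧
      c ≠ f ∧ d ≠ e ∧ d ≠ f ∧ e ≠ f) : False := by
  have h1 : ({a, b, c, d, e, f} : Finset ℕ).card ≤ K.card := by
    apply card_le_card
    intro z hz
    simp only [mem_insert, mem_singleton] at hz
    rcases hz with rfl | rfl | rfl | rfl | rfl | rfl <;> assumption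
  have h2 : ({a, b, c, d, e, f} : Finset ℕ).card = 6 := by
    rw [card_insert_of_notMem, card_insert_of_notMem, card_insert_of_notMem,
      card_insert_of_notMem, card_insert_of_notMem, card_singleton]
    all_goals simp only [mem_insert, mem_singleton]; omega
  omega

/-- Five different elements exhaust the set. -/
theorem five_all {K : Finset ℕ} (h5 : K.card ≤ 5) {a b c d e : ℕ} (ha : a ∈ K) (hb : b ∈ K)
    (hc : c ∈ K) (hd : d ∈ K) (he : e ∈ K)
    (h : a ≠ b ∧ a ≠ c ∧ a ≠ d ∧ a ≠ e ∧ b ≠ c ∧ b ≠ d ∧ b ≠ e ∧ c ≠ d ∧ c ≠ e ∧ d ≠ e) :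
    ∀ z ∈ K, z = a ∨ z = b ∨ z = c ∨ z = d ∨ z = e := by
  intro z hz
  by_contra hcon
  push Not at hcon
  exact six_false h5 ha hb hc hd he hz (by omega)

end Pool.Agent.LibFSN
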