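import Pool.Agent.LibFS32.Base

/-! Row C1 (MEDIUM). A large `b`, divisible by `M`, with the same primality of `T + 1` and `T + 2`. -/

set_option autoImplicit false

namespace Pool.Agent.LibFSN

open Nat Finset

/-- A large prime `≡ q (mod M)` for a prime `q` not dividing `M`. -/
private theorem c1_dir {q M : ℕ} (hq : q.Prime) (hM : 0 < M) (hqM : ¬ q ∣ M) (L : ℕ) :
    ∃ b, L ≤ b ∧ M ∣ b ∧ (q + b).Prime := by
  have hc : q.Coprime M := (Nat.Prime.coprime_iff_not_dvd hq).2 hqM
  obtain ⟨p, hp1, hp2, hp3⟩ := Nat.forall_exists_prime_gt_and_modEq (q + L) (q := M) (a := q)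
    (by omega) hc
  refine ⟨p - q, by omega, ?_, ?_⟩
  · exact (Nat.modEq_iff_dvd' (by omega)).1 hp3.symm
  · rwa [show q + (p - q) = p by omega]

private theorem c1_even {n : ℕ} (h : 2 ∣ n) (h2 : 2 < n) : ¬ n.Prime := by
  intro hp
  have := (Nat.prime_dvd_prime_iff_eq Nat.prime_two hp).1 h
  omega

private theorem c1_odd {p : ℕ} (hp : p.Prime) (h2 : 2 < p) : p % 2 = 1 := by
  rcases hp.eq_two_or_odd with h | h
  · omega
  · exact h

theorem z0 (T M N : ℕ) (hT : 3 ≤ T) (hM : 0 < M) (hMp : ∀ p, p.Prime → p ∣ M → p ≤ T) :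
    ∃ b, N ≤ b ∧ M ∣ b ∧ ((T + 1).Prime ↔ (T + b + 1).Prime) ∧
      ((T + 2).Prime ↔ (T + b + 2).Prime) := by
  by_cases h1 : (T + 1).Prime
  · have hnd : ¬ (T + 1) ∣ M := fun hd => by
      have := hMp _ h1 hd
      omega
    obtain ⟨b, hb1, hb2, hb3⟩ := c1_dir h1 hM hnd N
    have ho := c1_odd h1 (by omega)
    have ho' := c1_odd hb3 (by omega)
    refine ⟨b, hb1, hb2, ⟨fun _ => ?_, fun _ => h1⟩, ?_⟩
    · rwa [show T + b + 1 = T + 1 + b by omega]
    · constructor
      · intro hp
        exact absurd hp (c1_even (by omega) (by omega))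
      · intro hp
        exact absurd hp (c1_even (by omega) (by omega))
  · by_cases h2 : (T + 2).Prime
    · have hnd : ¬ (T + 2) ∣ M := fun hd => by
        have := hMp _ h2 hd
        omega
      obtain ⟨b, hb1, hb2, hb3⟩ := c1_dir h2 hM hnd N
      have ho := c1_odd h2 (by omega)
      have ho' := c1_odd hb3 (by omega)
      refine ⟨b, hb1, hb2, ⟨fun h => absurd h h1, fun hp => ?_⟩, ⟨fun _ => ?_, fun _ => h2⟩⟩
      · exact absurd hp (c1_even (by omega) (by omega))
      · rwa [show T + b + 2 = T + 2 + b by omega]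
    · refine ⟨M * ((T + 1) * (T + 2)) * (N + 1), ?_, ?_, ?_, ?_⟩
      · have h3 : 1 ≤ M * ((T + 1) * (T + 2)) := Nat.mul_pos hM (by positivity)
        calc N ≤ 1 * (N + 1) := by omega
          _ ≤ M * ((T + 1) * (T + 2)) * (N + 1) := Nat.mul_le_mul_right _ h3
      · exact (Dvd.intro _ rfl : M ∣ M * ((T + 1) * (T + 2))).mul_right _
      · refine ⟨fun h => absurd h h1, fun hp => ?_⟩
        have h3 : T + M * ((T + 1) * (T + 2)) * (N + 1) + 1 =
            (T + 1) * (1 + M * (T + 2) * (N + 1)) := by ring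
        rw [h3] at hp
        have h4 : 0 < M * (T + 2) * (N + 1) := by positivity
        exact absurd hp (Nat.not_prime_mul (by omega) (by omega))
      · refine ⟨fun h => absurd h h2, fun hp => ?_⟩
        have h3 : T + M * ((T + 1) * (T + 2)) * (N + 1) + 2 =
            (T + 2) * (1 + M * (T + 1) * (N + 1)) := by ring
        rw [h3] at hp
        have h4 : 0 < M * (T + 1) * (N + 1) := by positivity
        exact absurd hp (Nat.not_prime_mul (by omega) (by omega))

end Pool.Agent.LibFSN
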