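import Pool.Agent.LibFS32.Base

/-! Row C2 (SHORT). The same for the three numbers `T + 1, T + 2, T + 3` (only prime to prime), using twin primes.
PLAN. `T + 1` and `T + 3` both prime: `H1.exists_gt (T + N + 1)` gives `p`, `b = p - (T + 1)`; `T + 2` is even, not prime. Otherwise, if `T + i` (`i = 1`, `2` or `3`) is prime, it is the only one (`T + 2` prime: `T + 1`, `T + 3` even): `Nat.exists_infinite_primes`, `b = p - (T + i)`. If none is prime: `b = N`. -/

set_option autoImplicit false

namespace Pool.Agent.LibFSN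

open Nat Finset

theorem z1 (T N : ℕ) (hT : 3 ≤ T) (H1 : {p : ℕ | p.Prime ∧ (p + 2).Prime}.Infinite) :
    ∃ b, N ≤ b ∧ ((T + 1).Prime → (T + b + 1).Prime) ∧ ((T + 2).Prime → (T + b + 2).Prime) ∧
      ((T + 3).Prime → (T + b + 3).Prime) := by
  by_cases h1 : (T + 1).Prime
  · have o1 : Odd (T + 1) := h1.odd_of_ne_two (by omega)
    have h2 : ¬ (T + 2).Prime := fun h => by
      have o2 : Odd (T + 2) := h.odd_of_ne_two (by omega)
      rw [Nat.odd_iff] at o1 o2
      omega
    by_cases h3 : (T + 3).Prime
    · obtain ⟨p, hp, hlt⟩ := H1.exists_gt (T + N + 1)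
      have hp' : p.Prime ∧ (p + 2).Prime := hp
      refine ⟨p - (T + 1), by omega, fun _ => ?_, fun h => absurd h h2, fun _ => ?_⟩
      · rw [show T + (p - (T + 1)) + 1 = p by omega]
        exact hp'.1
      · rw [show T + (p - (T + 1)) + 3 = p + 2 by omega]
        exact hp'.2
    · obtain ⟨p, hge, hp⟩ := Nat.exists_infinite_primes (T + N + 1)
      refine ⟨p - (T + 1), by omega, fun _ => ?_, fun h => absurd h h2, fun h => absurd h h3⟩
      rw [show T + (p - (T + 1)) + 1 = p by omega]
      exact hp
  · by_cases h2 : (T + 2).Prime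
    · have o2 : Odd (T + 2) := h2.odd_of_ne_two (by omega)
      have h3 : ¬ (T + 3).Prime := fun h => by
        have o3 : Odd (T + 3) := h.odd_of_ne_two (by omega)
        rw [Nat.odd_iff] at o2 o3
        omega
      obtain ⟨p, hge, hp⟩ := Nat.exists_infinite_primes (T + N + 2)
      refine ⟨p - (T + 2), by omega, fun h => absurd h h1, fun _ => ?_, fun h => absurd h h3⟩
      rw [show T + (p - (T + 2)) + 2 = p by omega]
      exact hp
    · by_cases h3 : (T + 3).Prime
      · obtain ⟨p, hge, hp⟩ := Nat.exists_infinite_primes (T + N + 3)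
        refine ⟨p - (T + 3), by omega, fun h => absurd h h1, fun h => absurd h h2, fun _ => ?_⟩
        rw [show T + (p - (T + 3)) + 3 = p by omega]
        exact hp
      · exact ⟨N, le_rfl, fun h => absurd h h1, fun h => absurd h h2, fun h => absurd h h3⟩

end Pool.Agent.LibFSN
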