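import Pool.Agent.LibFS32.B3

/-! Row D1 (SHORT/MEDIUM). Two of the special shapes of a component with five elements. -/

set_option autoImplicit false

namespace Pool.Agent.LibFSN

open Nat Finset

theorem case_a {V K : Finset ℕ} {T : ℕ} (h : Sit V K T)
    (H4 : {m : ℕ | ((m !)! + 1).Prime}.Infinite) (h1 : (T !)! ∈ K) (h2 : (T !)! + 1 ∈ K)
    (h3 : ((T !)!)! ∈ K) (N : ℕ) : Good V N := by
  have hT := h.cp.three T h.mem
  have hc : K.card ≤ 5 := h.cp.card
  have g1 := fac_gap hT
  have g2 := fac_gap (u := T !) (by omega)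
  have g3 := fac_gap (u := (T !)!) (by omega)
  obtain ⟨X, hX, hX1⟩ := H4.exists_gt (T + N + 9)
  have hX' : ((X !)! + 1).Prime := hX
  have hmem := h.mem
  have hfac := h.fac
  have v0 : T ∈ V := h.sub hmem
  have v1 : T ! ∈ V := h.sub hfac
  have v2 : (T !)! ∈ V := h.sub h1
  have v3 : (T !)! + 1 ∈ V := h.sub h2
  have v4 : ((T !)!)! ∈ V := h.sub h3
  have hall := five_all h.card v0 v1 v2 v3 v4 (by omega)
  have hVK : ∀ d ∈ V, d ∈ K := by
    intro d hd
    rcases hall d hd with e | e | e | e | e <;> rw [e] <;> assumption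
  have six : ∀ z ∈ K, z ≠ T → z ≠ T ! → z ≠ (T !)! → z ≠ (T !)! + 1 → z ≠ ((T !)!)! → False := by
    intro z hz a1 a2 a3 a4 a5
    exact six_false hc hmem hfac h1 h2 h3 hz (by omega)
  have e1 : T + 1 ∉ K := fun hk => six _ hk (by omega) (by omega) (by omega) (by omega) (by omega)
  have e2 : T ! + 1 ∉ K := fun hk => six _ hk (by omega) (by omega) (by omega) (by omega) (by omega)
  have e3 : (T !) - 1 ∉ K := fun hk => six _ hk (by omega) (by omega) (by omega) (by omega) (by omega)
  have hXT : T + (X - T) = X := by omega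
  refine good_of_rq h (b := X - T) (N := N) (by omega) (by omega)
    (fun d hd hdK => absurd (hVK d hd) hdK) (fun d hd hdK => absurd (hVK d hd) hdK) ?_
  rw [hXT]
  exact
    { r1 := fun hk => absurd hk e1
      r2 := fun hk => absurd hk e1
      r3 := fun hk => absurd hk e1
      s1 := fun hk => absurd hk e2
      s1' := fun hk => absurd hk e2
      s2 := fun hk => absurd hk e3
      s3 := fun _ _ _ _ => hX' }

theorem case_c {V K : Finset ℕ} {T : ℕ} (h : Sit V K T)
    (H2 : {m : ℕ | ((m !) - 1).Prime}.Infinite) (h1 : (T !) - 1 ∈ K) (h2 : (T !) - 2 ∈ K)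
    (h3 : ((T !) - 2)! ∈ K) (N : ℕ) : Good V N := by
  have hT := h.cp.three T h.mem
  have hc : K.card ≤ 5 := h.cp.card
  have hmem := h.mem
  have hfac := h.fac
  have hT4 : 4 ≤ T := by
    rcases hT.eq_or_lt with e | e
    · exfalso
      subst e
      have f3 : (3 : ℕ)! = 6 := rfl
      rw [f3] at h2 hfac
      exact h.cp.four hmem h2 hfac
    · exact e
  have g1 := fac_six hT4
  have g2 := fac_six (u := (T !) - 2) (by omega)
  have g3 := fac_gap2 (u := (T !) - 2) (w := T !) (by omega) (by omega)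
  obtain ⟨X, hX, hX1⟩ := H2.exists_gt (T + N + 9)
  have hX' : ((X !) - 1).Prime := hX
  have v0 : T ∈ V := h.sub hmem
  have v1 : (T !) - 2 ∈ V := h.sub h2
  have v2 : (T !) - 1 ∈ V := h.sub h1
  have v3 : T ! ∈ V := h.sub hfac
  have v4 : ((T !) - 2)! ∈ V := h.sub h3
  have hall := five_all h.card v0 v1 v2 v3 v4 (by omega)
  have hVK : ∀ d ∈ V, d ∈ K := by
    intro d hd
    rcases hall d hd with e | e | e | e | e <;> rw [e] <;> assumption
  have six : ∀ z ∈ K, z ≠ T → z ≠ (T !) - 2 → z ≠ (T !) - 1 → z ≠ T ! → z ≠ ((T !) - 2)! → False := by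
    intro z hz a1 a2 a3 a4 a5
    exact six_false hc hmem h2 h1 hfac h3 hz (by omega)
  have e1 : T + 1 ∉ K := fun hk => six _ hk (by omega) (by omega) (by omega) (by omega) (by omega)
  have e2 : T ! + 1 ∉ K := fun hk => six _ hk (by omega) (by omega) (by omega) (by omega) (by omega)
  have e3 : (T !)! ∉ K := fun hk => six _ hk (by omega) (by omega) (by omega) (by omega) (by omega)
  have hXT : T + (X - T) = X := by omega
  refine good_of_rq h (b := X - T) (N := N) (by omega) (by omega)
    (fun d hd hdK => absurd (hVK d hd) hdK) (fun d hd hdK => absurd (hVK d hd) hdK) ?_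
  rw [hXT]
  exact
    { r1 := fun hk => absurd hk e1
      r2 := fun hk => absurd hk e1
      r3 := fun hk => absurd hk e1
      s1 := fun hk => absurd hk e2
      s1' := fun hk => absurd hk e2
      s2 := fun _ _ _ _ => hX'
      s3 := fun hk => absurd hk e3 }

end Pool.Agent.LibFSN
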