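import Pool.Agent.LibFS32.B3
import Pool.Agent.LibFS32.A3

/-! Row D2 (MEDIUM). `T ! + 1` is prime and matters.
PLAN. `H3.exists_gt (T + N + 9)` gives an odd `X` with `X ! + 1` prime, `b = X - T`, `good_of_rq`. `hbD`: `d ≤ 2 < b`. `Rq`: for `m ≥ 3` with `m ! + 1` prime, `m + 1` is not prime (`wilson`: `m + 1 ∣ m ! + 1`, so `m + 1 = m ! + 1`, but `2 * m ≤ m !`): for `T` and for `X`; this is `r1`. `r2`, `r3`: `T, T + 1, T + 2, T !,
T ! + 1` and `(T !)!` or `((T !) - 1)!` are six elements (`T ≥ 4` by `Cp.arg_four`). `s1`: `X`. `s1'`: contradicts `hp`. `s2`: `T, (T !) - 2, (T !) - 1, T !, T ! + 1, ((T !) - 2)!`. `s3`: `T, T !, T ! + 1, (T !)!, (T !)! + 1, ((T !)!)!`. `hD`: let `d ∈ V`, `d ∉ K`, so `K.card ≤ 4` (a sixth element of `V` otherwise), `d = 1` (divides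
everything) or `d = 2`. The second alternative of `h2` is impossible (`T, (T !) - 1, T !, T ! + 1, ((T !) - 1)!, d ∈ V`), so `V = {T, T !, T ! + 1, (T !)!, d}`. Let `u ∈ K` be odd. If `u` has a source then `2 ∣ sh K b u` (`two_dvd_sh`). If not, `u = T` (`T !`, `T ! + 1` have the source `T`, `(T !)!` has the
source `T !`: `src_self`, `src_run`, `sr_succ`), `sh K b T = b` (`h.sh_T`), `T + b = X` is odd. -/

set_option autoImplicit false

namespace Pool.Agent.LibFSN

open Nat Finset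

theorem case_b {V K : Finset ℕ} {T : ℕ} (h : Sit V K T)
    (H3 : {m : ℕ | m % 2 = 1 ∧ (m ! + 1).Prime}.Infinite) (hp : (T ! + 1).Prime)
    (h1 : T ! + 1 ∈ K) (h2 : (T !)! ∈ K ∨ ((T !) - 1 ∈ K ∧ ((T !) - 1)! ∈ K))
    (hL : ∀ d ∈ V, d ∉ K → d ≤ 2) (N : ℕ) : Good V N := by
  have hK := h.cp.nr
  have hT3 : 3 ≤ T := h.cp.three T h.mem
  have hg := fac_gap hT3
  have h6 : 6 ≤ T ! := by
    calc 6 = 3 ! := rfl
      _ ≤ T ! := Nat.factorial_le hT3
  have h5 := h.cp.card
  have hgg : 2 * T ! ≤ (T !)! := fac_gap (by omega)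
  have hg1 : 6 * ((T !) - 1) ≤ ((T !) - 1)! := fac_six (by omega)
  have hg2 : 6 * ((T !) - 2) ≤ ((T !) - 2)! := fac_six (by omega)
  have hggg : 2 * (T !)! ≤ ((T !)!)! := fac_gap (by omega)
  have hnp : ∀ m, 3 ≤ m → (m ! + 1).Prime → ¬ (m + 1).Prime := by
    intro m hm hp' hq
    have h1' : m + 1 ∣ m ! + 1 := wilson hq
    have h2' := fac_gap hm
    rcases (Nat.dvd_prime hp').mp h1' with h3' | h3' <;> omega
  obtain ⟨X, ⟨hX1, hX2⟩, hX⟩ := H3.exists_gt (T + N + 9)
  have hXb : T + (X - T) = X := by omega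
  have hnpT := hnp T hT3 hp
  have hnpX := hnp X (by omega) hX2
  -- six elements
  have r2' : T + 1 ∈ K → T + 2 ∈ K → False := by
    intro ha hb
    have hT4 : 4 ≤ T := h.cp.arg_four h.mem h.fac ha
    have hs6 := fac_six hT4
    rcases h2 with h2 | ⟨-, h2⟩
    · exact six_false h5 h.mem ha hb h.fac h1 h2 (by omega)
    · exact six_false h5 h.mem ha hb h.fac h1 h2 (by omega)
  have hR : Rq K T (T + (X - T)) := by
    rw [hXb]
    refine ⟨fun _ => ⟨fun hq => absurd hq hnpT, fun _ _ => hnpX⟩, fun ha hb => (r2' ha hb).elim,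
      fun ha hb => (r2' ha hb).elim, fun _ _ _ => hX2, fun _ _ _ hq => absurd hp hq, ?_, ?_⟩
    · intro ha hb hc _
      exact (six_false h5 h.mem hb ha h.fac h1 hc (by omega)).elim
    · intro ha hb hc _
      exact (six_false h5 h.mem h.fac h1 ha hb hc (by omega)).elim
  refine good_of_rq h (b := X - T) (by omega) (by omega) ?_ ?_ hR
  · intro d hd hdK
    have := hL d hd hdK
    omega
  · intro d hd hdK u hu hdu
    have hd2 := hL d hd hdK
    have hd1 := h.pos d hd
    rcases Nat.lt_or_ge d 2 with hlt | hge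
    · exfalso
      apply hdu
      rw [show d = 1 by omega]
      exact one_dvd _
    have hd' : d = 2 := by omega
    subst hd'
    by_cases hsrc : ∃ w, Src K w u
    · have h3 := two_dvd_sh hK (X - T) hsrc
      intro h4
      exact hdu ((Nat.dvd_add_left h3).mp h4)
    · have huT : u = T := by
        rcases h2 with h2 | ⟨h2, h2'⟩
        · have hall := five_all h.card (h.sub h.mem) (h.sub h.fac) (h.sub h1) (h.sub h2) hd
            (by omega) u (h.sub hu)
          rcases hall with h3 | h3 | h3 | h3 | h3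
          · exact h3
          · exact (hsrc ⟨T, h3 ▸ src_self h.mem h.fac⟩).elim
          · exact (hsrc ⟨T, h3 ▸ src_run (src_self h.mem h.fac) (sr_succ h.fac h1)⟩).elim
          · exact (hsrc ⟨T !, h3 ▸ src_self h.fac h2⟩).elim
          · exact (hdK (h3 ▸ hu)).elim
        · exact (six_false h.card (h.sub h.mem) (h.sub h2) (h.sub h.fac) (h.sub h1) (h.sub h2') hd
            (by omega)).elim
      rw [huT, h.sh_T, hXb]
      omega

end Pool.Agent.LibFSN
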