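import Pool.Agent.LibFS32.B3
import Pool.Agent.LibFS32.C2

/-! Row D3 (SHORT/MEDIUM). Two more shapes of a component with five elements.
PLAN. `case_e`: `K ∋ T, T !, T ! + 1, (T !)!, (T !)! + 1` (different), so `V = K` consists of these (`five_all h.card`, `h.sub`). A prime `p ≥ T + N + 10` (`Nat.exists_infinite_primes`), `X = p - 1`, `b = X - T`: `X ! + 1` is divisible by `p` (`wilson`) and `p < X ! + 1`, so it is not prime. `good_of_rq`;
`Rq K T X`: `s1'` is this; `s1` contradicts `hp`; `r1`, `r2`, `r3`: `T + 1 ∈ K` is a sixth element (`T ≥ 4` by `Cp.arg_four`); `s2`: `(T !) - 1 ∈ K`, sixth; `s3`: `((T !)!)! ∈ K`, sixth.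
`case_f`: `T ≥ 4` (`Cp.arg_four`), `K ∋ T, T + 1, T + 2, T + 3, T !` (different, `fac_six`), `V = K`. `b` from `z1 T (N + 9)`: `r1`, `r2`, `r3` (their second parts and `s1`, `s1'`, `s2`, `s3` need a sixth element `T ! + 1`, `(T !) - 1` or `(T !)!`). -/

set_option autoImplicit false

namespace Pool.Agent.LibFSN

open Nat Finset

private theorem D3_good {V K : Finset ℕ} {T : ℕ} (h : Sit V K T) {a b c d e : ℕ} (ha : a ∈ K)
    (hb : b ∈ K) (hc : c ∈ K) (hd : d ∈ K) (he : e ∈ K)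
    (hne : a ≠ b ∧ a ≠ c ∧ a ≠ d ∧ a ≠ e ∧ b ≠ c ∧ b ≠ d ∧ b ≠ e ∧ c ≠ d ∧ c ≠ e ∧ d ≠ e)
    {s N : ℕ} (hs : N + 9 ≤ s) (hR : Rq K T (T + s)) : Good V N := by
  have hV : ∀ z ∈ V, z ∈ K := by
    intro z hz
    rcases five_all h.card (h.sub ha) (h.sub hb) (h.sub hc) (h.sub hd) (h.sub he) hne z hz with
      rfl | rfl | rfl | rfl | rfl <;> assumption
  exact good_of_rq h (b := s) (by omega) (by omega) (fun z h1 h2 => absurd (hV z h1) h2)
    (fun z h1 h2 => absurd (hV z h1) h2) hR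

theorem case_e {V K : Finset ℕ} {T : ℕ} (h : Sit V K T) (hp : ¬ (T ! + 1).Prime)
    (h1 : T ! + 1 ∈ K) (h2 : (T !)! ∈ K) (h3 : (T !)! + 1 ∈ K) (N : ℕ) : Good V N := by
  have hT := h.cp.three T h.mem
  have g1 := fac_gap hT
  have g2 := fac_gap (u := T !) (by omega)
  have g3 := fac_gap (u := (T !)!) (by omega)
  obtain ⟨p, hpN, hpp⟩ := Nat.exists_infinite_primes (T + N + 10)
  obtain ⟨s, rfl⟩ : ∃ s, p = T + s + 1 := ⟨p - T - 1, by omega⟩
  have hc5 := h.cp.card
  refine D3_good h h.mem h.fac h1 h2 h3 (by omega) (s := s) (by omega) ?_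
  constructor
  · intro h4
    have h5 := h.cp.arg_four h.mem h.fac h4
    have g4 := fac_six h5
    exact (six_false hc5 h.mem h.fac h1 h2 h3 h4 (by omega)).elim
  · intro h4
    have h5 := h.cp.arg_four h.mem h.fac h4
    have g4 := fac_six h5
    exact (six_false hc5 h.mem h.fac h1 h2 h3 h4 (by omega)).elim
  · intro h4
    have h5 := h.cp.arg_four h.mem h.fac h4
    have g4 := fac_six h5
    exact (six_false hc5 h.mem h.fac h1 h2 h3 h4 (by omega)).elim
  · intro _ _ h4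
    exact absurd h4 hp
  · intro _ _ _ _ hq
    have h5 : (T + s + 1) ∣ (T + s)! + 1 := by
      have := Fact.mk hpp
      have h6 := ZMod.wilsons_lemma (T + s + 1)
      rw [Nat.add_sub_cancel] at h6
      rw [← ZMod.natCast_eq_zero_iff]
      push_cast
      rw [h6]
      ring
    have g5 := fac_gap (u := T + s) (by omega)
    rcases (Nat.dvd_prime hq).1 h5 with h6 | h6 <;> omega
  · intro h4
    exact (six_false hc5 h.mem h.fac h1 h2 h3 h4 (by omega)).elim
  · intro _ _ h4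
    exact (six_false hc5 h.mem h.fac h1 h2 h3 h4 (by omega)).elim

theorem case_f {V K : Finset ℕ} {T : ℕ} (h : Sit V K T)
    (H1 : {p : ℕ | p.Prime ∧ (p + 2).Prime}.Infinite) (h1 : T + 1 ∈ K) (h2 : T + 2 ∈ K)
    (h3 : T + 3 ∈ K) (N : ℕ) : Good V N := by
  have hT := h.cp.arg_four h.mem h.fac h1
  have g1 := fac_six hT
  have g2 := fac_gap (u := T !) (by omega)
  have hc5 := h.cp.card
  obtain ⟨s, hs, z1, z2, z3⟩ := z1 T (N + 9) (by omega) H1
  refine D3_good h h.mem h1 h2 h3 h.fac (by omega) (s := s) hs ?_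
  have k : ∀ z, z ∈ K → z ≠ T ! → T + 3 < z → False := fun z hz h4 h5 =>
    six_false hc5 h.mem h1 h2 h3 h.fac hz (by omega)
  constructor
  · exact fun _ => ⟨z1, fun h4 => (k _ h4 (by omega) (by omega)).elim⟩
  · exact fun _ _ => ⟨z2, fun h4 => (k _ h4 (by omega) (by omega)).elim⟩
  · exact fun _ _ _ => z3
  · exact fun h4 => (k _ h4 (by omega) (by omega)).elim
  · exact fun h4 => (k _ h4 (by omega) (by omega)).elim
  · exact fun h4 => (k _ h4 (by omega) (by omega)).elim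
  · exact fun h4 => (k _ h4 (by omega) (by omega)).elim

end Pool.Agent.LibFSN
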