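import Pool.Agent.LibFS32.B3
import Pool.Agent.LibFS32.A3
import Pool.Agent.LibFS32.C1

/-! Row D4 (MEDIUM). The generic case.
PLAN. `M = ∏ d ∈ V \ K, d` (`> 0` by `h.pos`); a prime divisor of `M` divides some `d ∈ V \ K` (`Prime.exists_mem_finset_dvd`), hence `T !`, so it is `≤ T` (`Nat.Prime.dvd_factorial`). `z0 T M (N + 9 + ∑ v ∈ V, v + 1)` gives `b`. `good_of_rq`: `hbD`: `single_le_sum`. `hD`: `d ∣ M ∣ b`
(`Finset.dvd_prod_of_mem`), `d ∣ w !` for all arguments `w` (`T ≤ w` by `h.min`, `Nat.factorial_dvd_factorial`), so `d ∣ sh K b u` (`dvd_sh`), `Nat.dvd_add_left`. `Rq`: `r1`, `r2` from the equivalences; `r3` contradicts `n3`; `s1`: `n1`; `s1'`: `n1'`; `s2`: `n2`; `s3`: `ns`. -/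

set_option autoImplicit false

namespace Pool.Agent.LibFSN

open Nat Finset

theorem case_g {V K : Finset ℕ} {T : ℕ} (h : Sit V K T) (hD : ∀ d ∈ V, d ∉ K → d ∣ T !)
    (n3 : ¬ (T + 1 ∈ K ∧ T + 2 ∈ K ∧ T + 3 ∈ K))
    (n1 : (T ! + 1).Prime → T ! + 1 ∈ K →
      ¬ ((T !)! ∈ K ∨ ((T !) - 1 ∈ K ∧ ((T !) - 1)! ∈ K)))
    (n1' : ¬ (T ! + 1).Prime → ¬ (T ! + 1 ∈ K ∧ (T !)! ∈ K ∧ (T !)! + 1 ∈ K))
    (n2 : ((T !) - 1).Prime → ¬ ((T !) - 1 ∈ K ∧ (T !) - 2 ∈ K ∧ ((T !) - 2)! ∈ K))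
    (ns : ((T !)! + 1).Prime → ¬ ((T !)! ∈ K ∧ (T !)! + 1 ∈ K ∧ ((T !)!)! ∈ K)) (N : ℕ) :
    Good V N := by
  classical
  set M := ∏ d ∈ V \ K, d with hM
  have hMpos : 0 < M := Finset.prod_pos fun d hd => h.pos d (mem_sdiff.1 hd).1
  have hMp : ∀ p, p.Prime → p ∣ M → p ≤ T := by
    intro p hp hpM
    obtain ⟨d, hd, hpd⟩ := (hp.prime.dvd_finsetProd_iff _).1 hpM
    obtain ⟨h1, h2⟩ := mem_sdiff.1 hd
    exact (hp.dvd_factorial).1 (hpd.trans (hD d h1 h2))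
  have hT3 : 3 ≤ T := h.cp.three T h.mem
  obtain ⟨b, hb1, hb2, hb3, hb4⟩ := z0 T M (N + 9 + ∑ v ∈ V, v + 1) hT3 hMpos hMp
  refine good_of_rq h (b := b) (by omega) (by omega) ?_ ?_ ?_
  · intro d hd _
    have h1 := Finset.single_le_sum (f := fun v : ℕ => v) (fun _ _ => Nat.zero_le _) hd
    omega
  · intro d hd hdK u hu hn hdv
    apply hn
    have h1 : d ∣ sh K b u := dvd_sh h.cp.nr
      ((Finset.dvd_prod_of_mem _ (mem_sdiff.2 ⟨hd, hdK⟩)).trans hb2)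
      (fun w hw hwf => (hD d hd hdK).trans (Nat.factorial_dvd_factorial (h.min w hw hwf))) u hu
    exact (Nat.dvd_add_left h1).1 hdv
  · exact {
      r1 := fun _ => ⟨hb3.1, fun _ hnp hp => hnp (hb3.2 hp)⟩
      r2 := fun _ _ => ⟨hb4.1, fun _ hnp hp => hnp (hb4.2 hp)⟩
      r3 := fun h1 h2 h3 _ => absurd ⟨h1, h2, h3⟩ n3
      s1 := fun h1 h2 h3 => absurd h2 (n1 h3 h1)
      s1' := fun h1 h2 h3 h4 => absurd ⟨h1, h2, h3⟩ (n1' h4)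
      s2 := fun h1 h2 h3 h4 => absurd ⟨h1, h2, h3⟩ (n2 h4)
      s3 := fun h1 h2 h3 h4 => absurd ⟨h1, h2, h3⟩ (ns h4) }

end Pool.Agent.LibFSN
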