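import Pool.Agent.LibFS32.D1
import Pool.Agent.LibFS32.D2
import Pool.Agent.LibFS32.D3
import Pool.Agent.LibFS32.D4

/-! One component (assembly). -/

set_option autoImplicit false

namespace Pool.Agent.LibFSN

open Nat Finset

/-- The four hypotheses. -/
structure Hyp : Prop where
  twin : {p : ℕ | p.Prime ∧ (p + 2).Prime}.Infinite
  minus : {m : ℕ | ((m !) - 1).Prime}.Infinite
  odd : {m : ℕ | m % 2 = 1 ∧ (m ! + 1).Prime}.Infinite
  dbl : {m : ℕ | 4 ≤ m ∧ ((m !)! + 1).Prime} = ∅ ∨ {m : ℕ | 4 ≤ m ∧ ((m !)! + 1).Prime}.Infinite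

theorem one_comp (H : Hyp) {V K : Finset ℕ} {T : ℕ} (h : Sit V K T)
    (hD : ∀ d ∈ V, d ∉ K → d ∣ T !) (hL : 4 ≤ K.card → ∀ d ∈ V, d ∉ K → d ≤ 2) (N : ℕ) :
    Good V N := by
  have h3 : 3 ≤ T := h.cp.three T h.mem
  have g1 := fac_gap h3
  have g2 := fac_gap (u := T !) (by omega)
  by_cases c3 : T + 1 ∈ K ∧ T + 2 ∈ K ∧ T + 3 ∈ K
  · exact case_f h H.twin c3.1 c3.2.1 c3.2.2 N
  by_cases cs : ((T !)! + 1).Prime ∧ ((T !)! ∈ K ∧ (T !)! + 1 ∈ K ∧ ((T !)!)! ∈ K)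
  · have h4 : 4 ≤ T := by
      by_contra hc
      have h5 : T = 3 := by omega
      have h6 := cs.1
      rw [h5, show ((3 : ℕ) !)! = 720 from rfl] at h6
      norm_num at h6
    have h5 : {m : ℕ | 4 ≤ m ∧ ((m !)! + 1).Prime}.Infinite := by
      rcases H.dbl with h6 | h6
      · exfalso
        have : T ∈ {m : ℕ | 4 ≤ m ∧ ((m !)! + 1).Prime} := ⟨h4, cs.1⟩
        rw [h6] at this
        exact this
      · exact h6
    exact case_a h (h5.mono fun m hm => hm.2) cs.2.1 cs.2.2.1 cs.2.2.2 N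
  by_cases c2 : ((T !) - 1).Prime ∧ ((T !) - 1 ∈ K ∧ (T !) - 2 ∈ K ∧ ((T !) - 2)! ∈ K)
  · exact case_c h H.minus c2.2.1 c2.2.2.1 c2.2.2.2 N
  by_cases c1' : ¬ (T ! + 1).Prime ∧ (T ! + 1 ∈ K ∧ (T !)! ∈ K ∧ (T !)! + 1 ∈ K)
  · exact case_e h c1'.1 c1'.2.1 c1'.2.2.1 c1'.2.2.2 N
  by_cases c1 : (T ! + 1).Prime ∧ T ! + 1 ∈ K ∧
      ((T !)! ∈ K ∨ ((T !) - 1 ∈ K ∧ ((T !) - 1)! ∈ K))
  · refine case_b h H.odd c1.1 c1.2.1 c1.2.2 (hL ?_) N
    have key : ∀ {x : ℕ}, x ∈ K → T ! + 1 < x → 4 ≤ K.card := by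
      intro x hx hxT
      have h6 : ({T, T !, T ! + 1, x} : Finset ℕ).card ≤ K.card := by
        apply card_le_card
        intro z hz
        simp only [mem_insert, mem_singleton] at hz
        rcases hz with rfl | rfl | rfl | rfl
        · exact h.mem
        · exact h.fac
        · exact c1.2.1
        · exact hx
      rw [card_insert_of_notMem (by simp; omega), card_insert_of_notMem (by simp; omega),
        card_insert_of_notMem (by simp; omega), card_singleton] at h6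
      exact h6
    rcases c1.2.2 with h6 | h6
    · exact key h6 (by have := fac_six (u := T !) (by omega); omega)
    · refine key h6.2 ?_
      rcases h3.eq_or_lt with rfl | h4
      · decide
      · have g3 := fac_six (u := T) h4
        have g4 := fac_six (u := (T !) - 1) (by omega)
        omega
  exact case_g h hD c3 (fun hp h1 h2 => c1 ⟨hp, h1, h2⟩) (fun hp h2 => c1' ⟨hp, h2⟩)
    (fun hp h2 => c2 ⟨hp, h2⟩) (fun hp h2 => cs ⟨hp, h2⟩) N

end Pool.Agent.LibFSN
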