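import Pool.Agent.LibFS32.Base

/-! Row E1 (MEDIUM). Two interleaved components: `a, a !, a ! + 1` and `c, c !` with `a < c < a !`.
PLAN. As `t1b`, `t3` in `Pool/Agent/LibFSN/Types2.lean`: take a prime `p ≥ a + c + N + 12` (`Nat.exists_infinite_primes`), `x = p - 2`, and send `a ↦ x`, `c ↦ p = x + 2`, `a ! ↦ x !`, `a ! + 1 ↦ x ! + 1`, `c ! ↦ p !`. Order: `a < c < a ! < a ! + 1 < c !` (`c ! ≥ (a + 1) * a !`) and `x < p < x ! < x ! + 1 < p !` (`fac_six`), so
pairs (larger, smaller) are `rel_down'` and `rel_self`. Pairs (smaller, larger): `(a, c)`: not adjacent, `a ! ≠ c`, and `x ∤ x + 2`; `(a, a !)`: `rel_chain`; `(a, a ! + 1)`: `a ∤ a ! + 1`, `x ∤ x ! + 1`, `a ! ≠ a ! + 1`; `(a, c !)`: divides (`rel_chain2`-like, `a ! ≠ c !`); `(c, a !)`: `c + 1 ≠ a !`, `c ! ≠ a !`, `p ∤ x !`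
(`p` prime, `x < p`); `(c, a ! + 1)`: `c + 1 ≠ a ! + 1`, `c ! ≠ a ! + 1`, and `p ∤ x ! + 1`: from `wilson` for `x + 1`: `p ∣ (x + 1) * x ! + 1`, and `(x + 1) ≡ -1 mod p`, so `p ∣ (x !) - 1`, hence not `x ! + 1` (`p > 2`); `(c, c !)`: `rel_chain`; `(a !, a ! + 1)`: successor; `a ! ∤ a ! + 1`, `x ! ∤ x ! + 1`; `(a !, c !)`: divides;
`(a !)! ≠ c !`; `a ! + 1 ≠ c !`; `(a ! + 1, c !)`: `a ! + 2 ≠ c !`, `(a ! + 1)! ≠ c !` (`c < a ! + 1`), `x ! + 1 ∤ p ! = (x + 2) * (x + 1) * x !`: `x ! + 1` is coprime to `x !`, so it would divide `(x + 2) * (x + 1) < x ! + 1` (`x ≥ 9`). -/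

set_option autoImplicit false

namespace Pool.Agent.LibFSN

open Nat Finset

private theorem E1_big {a c : ℕ} (hac : a + 1 < c) (ha : 3 ≤ a) : 20 * a ! ≤ c ! := by
  have h1 : (a + 2)! ≤ c ! := Nat.factorial_le (by omega)
  have h2 : (a + 2)! = (a + 2) * ((a + 1) * a !) := by
    rw [Nat.factorial_succ, Nat.factorial_succ]
  have h3 : 20 ≤ (a + 2) * (a + 1) := by nlinarith
  calc 20 * a ! ≤ ((a + 2) * (a + 1)) * a ! := Nat.mul_le_mul_right _ h3
    _ = (a + 2)! := by rw [h2]; ring
    _ ≤ c ! := h1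

private theorem E1_sq {x : ℕ} (hx : 9 ≤ x) : (x + 2) * (x + 1) < x ! := by
  obtain ⟨y, rfl⟩ := Nat.exists_eq_add_of_le (show 1 ≤ x by omega)
  rw [Nat.add_comm 1 y, Nat.factorial_succ]
  have h1 := fac_six (u := y) (by omega)
  have h2 : (y + 1) * (6 * y) ≤ (y + 1) * y ! := Nat.mul_le_mul_left _ h1
  nlinarith

theorem sp_alpha {V : Finset ℕ} {a c : ℕ} (ha : 3 ≤ a) (hac : a + 1 < c) (hc : c + 1 < a !)
    (haV : a ∈ V) (hV : ∀ u ∈ V, u = a ∨ u = a ! ∨ u = a ! + 1 ∨ u = c ∨ u = c !) (N : ℕ) :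
    Good V N := by
  obtain ⟨p, hp1, hp⟩ := Nat.exists_infinite_primes (a + c + N + 12)
  obtain ⟨x, hx⟩ : ∃ x, p = x + 2 := ⟨p - 2, by omega⟩
  subst hx
  have g1 := fac_gap ha
  have g2 := fac_six (u := x) (by omega)
  have g3 := E1_big hac ha
  have g4 : c ! < (a !)! := Nat.factorial_lt (by omega) |>.2 (by omega)
  have g5 := E1_sq (x := x) (by omega)
  have g6 : (x + 2)! = (x + 2) * (x + 1) * x ! := by
    rw [Nat.factorial_succ, Nat.factorial_succ]; ring
  have g7 : x ! + 1 < (x + 2)! := by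
    have h2 : 2 * x ! ≤ (x + 2) * (x + 1) * x ! := Nat.mul_le_mul_right _ (by nlinarith)
    omega
  have g8 := fac_gap (u := c) (by omega)
  have g9 := fac_gap (u := a !) (by omega)
  have g10 : c ! < (a ! + 1)! := Nat.factorial_lt (by omega) |>.2 (by omega)
  have n1 : ¬ x ∣ x + 2 := by
    intro hd
    have h1 := Nat.le_of_dvd (by omega) ((Nat.dvd_add_right dvd_rfl).1 hd)
    omega
  have n2 : ¬ x ∣ x ! + 1 := by
    intro hd
    have h1 := Nat.le_of_dvd (by omega) ((Nat.dvd_add_right (Nat.dvd_factorial (by omega) le_rfl)).1 hd)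
    omega
  have n3 : ¬ (x + 2) ∣ x ! := by
    rw [hp.dvd_factorial]; omega
  have n4 : ¬ (x + 2) ∣ x ! + 1 := by
    intro hd
    have hw : (x + 1) + 1 ∣ (x + 1)! + 1 := wilson (p := x + 1) hp
    have e1 : (x + 1) * (x ! + 1) = ((x + 1)! + 1) + x := by
      rw [Nat.factorial_succ]; ring
    have h1 : (x + 2) ∣ ((x + 1)! + 1) + x := by
      rw [← e1]; exact Dvd.dvd.mul_left hd _
    have h2 : (x + 2) ∣ x := (Nat.dvd_add_right hw).1 h1
    have h3 := Nat.le_of_dvd (by omega) h2
    omega
  have n5 : ¬ x ! ∣ x ! + 1 := by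
    intro hd
    have h1 := Nat.le_of_dvd (by omega) ((Nat.dvd_add_right dvd_rfl).1 hd)
    omega
  have n6 : ¬ (x ! + 1) ∣ (x + 2)! := by
    intro hd
    rw [g6] at hd
    have hco : Nat.Coprime (x ! + 1) (x !) := by simp
    have h1 := Nat.le_of_dvd (by positivity) (hco.dvd_of_dvd_mul_right hd)
    omega
  refine ⟨fun u => u = (a, x) ∨ u = (c, x + 2) ∨ u = (a !, x !) ∨ u = (a ! + 1, x ! + 1) ∨
    u = (c !, (x + 2)!), ?_, ?_, ?_, ⟨a, haV, x, Or.inl rfl, by omega⟩⟩
  · rintro u u' (h | h | h | h | h) (h' | h' | h' | h' | h') <;> subst h <;> subst h'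
    · exact rel_self _ (by simp only; omega)
    · exact ⟨fun h => by simp only at h; omega, fun h => by simp only at h; omega,
        fun h => by simp only at h; omega, fun _ => n1⟩
    · exact rel_chain ha (by omega)
    · exact ⟨fun h => by simp only at h; omega, fun h => by simp only at h; omega,
        fun h => by simp only at h; omega, fun _ => n2⟩
    · exact rel_chain2 ha (by omega) (by omega) (by omega) (by omega)
    · exact rel_down' (by omega) (by omega) (by omega)
    · exact rel_self _ (by simp only; omega)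
    · exact ⟨fun h => by simp only at h; omega, fun h => by simp only at h; omega,
        fun h => by simp only at h; omega, fun _ => n3⟩
    · exact ⟨fun h => by simp only at h; omega, fun h => by simp only at h; omega,
        fun h => by simp only at h; omega, fun _ => n4⟩
    · exact rel_chain (by omega) (by omega)
    · exact rel_down' (by omega) (by omega) (by omega)
    · exact rel_down' (by omega) (by omega) (by omega)
    · exact rel_self _ (by simp only; omega)
    · exact ⟨fun h => by simp only at h; omega, fun _ => rfl,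
        fun h => by simp only at h; omega, fun _ => n5⟩
    · refine ⟨fun h => by simp only at h; omega, fun h => by simp only at h; omega,
        fun h => by simp only at h; omega, fun hn => absurd (Nat.factorial_dvd_factorial (by omega)) hn⟩
    · exact rel_down' (by omega) (by omega) (by omega)
    · exact rel_down' (by omega) (by omega) (by omega)
    · exact rel_down' (by omega) (by omega) (by omega)
    · exact rel_self _ (by simp only; omega)
    · exact ⟨fun h => by simp only at h; omega, fun h => by simp only at h; omega,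
        fun h => by simp only at h; omega, fun _ => n6⟩
    · exact rel_down' (by omega) (by omega) (by omega)
    · exact rel_down' (by omega) (by omega) (by omega)
    · exact rel_down' (by omega) (by omega) (by omega)
    · exact rel_down' (by omega) (by omega) (by omega)
    · exact rel_self _ (by simp only; omega)
  · rintro u (h | h | h | h | h) <;> subst h <;> simp only <;> omega
  · intro u hu
    rcases hV u hu with h | h | h | h | h
    · exact ⟨x, Or.inl (by rw [h])⟩
    · exact ⟨x !, Or.inr (Or.inr (Or.inl (by rw [h])))⟩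
    · exact ⟨x ! + 1, Or.inr (Or.inr (Or.inr (Or.inl (by rw [h]))))⟩
    · exact ⟨x + 2, Or.inr (Or.inl (by rw [h]))⟩
    · exact ⟨(x + 2)!, Or.inr (Or.inr (Or.inr (Or.inr (by rw [h]))))⟩

end Pool.Agent.LibFSN
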