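import Pool.Agent.LibFS32.Base

/-! Row E2 (MEDIUM). Two interleaved components: `a, a !, (a !) - 1` and `c, c !` with `a < c < a !`.
PLAN. As `t1b`, `t3` in `Pool/Agent/LibFSN/Types2.lean`: take a prime `p ≥ a + c + N + 12` (`Nat.exists_infinite_primes`), `x = p - 1`, and send `a ↦ x`, `c ↦ p = x + 1`, `(a !) - 1 ↦ (x !) - 1`, `a ! ↦ x !`, `c ! ↦ p !`. Order: `a < c < (a !) - 1 < a ! < c !` (`c ! ≥ (a + 1) * a !`) and `x < p < (x !) - 1 < x ! < p !`
(`fac_six`), so pairs (larger, smaller) are `rel_down'` and `rel_self`. Pairs (smaller, larger): `(a, c)`: not adjacent, `a ! ≠ c`, and `x ∤ x + 1`; `(a, (a !) - 1)`: `a + 1 ≠ (a !) - 1`, `x ∤ (x !) - 1`; `(a, a !)`: `rel_chain`; `(a, c !)`: divides; `(c, (a !) - 1)`: `c + 1 ≠ (a !) - 1`, `c ! ≠ (a !) - 1`, `p ∤ (x !) - 1`: `wilson`: `p ∣ x ! + 1`,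
`p > 2`; `(c, a !)`: `c + 1 ≠ a !`, `c ! ≠ a !`, `p ∤ x !`; `(c, c !)`: `rel_chain`; `((a !) - 1, a !)`: successor; `(a !) - 1 ∤ a !`, `(x !) - 1 ∤ x !`; `((a !) - 1, c !)`: `a ! ≠ c !`, `((a !) - 1)! ≠ c !` (`c < (a !) - 1`), `(x !) - 1 ∤ p ! = (x + 1) * x !`: `(x !) - 1` is coprime to `x !`, so it would divide `x + 1 < (x !) - 1`; `(a !, c !)`:
divides; `a ! + 1 ≠ c !`, `(a !)! ≠ c !`. -/

set_option autoImplicit false

namespace Pool.Agent.LibFSN

open Nat Finset

private theorem E2_big {a c : ℕ} (hac : a + 1 < c) (ha : 3 ≤ a) : 20 * a ! ≤ c ! := by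
  have h1 : (a + 2)! ≤ c ! := Nat.factorial_le (by omega)
  have h2 : (a + 2)! = (a + 2) * ((a + 1) * a !) := by
    rw [Nat.factorial_succ, Nat.factorial_succ]
  have h3 : 20 ≤ (a + 2) * (a + 1) := by nlinarith
  calc 20 * a ! ≤ ((a + 2) * (a + 1)) * a ! := Nat.mul_le_mul_right _ h3
    _ = (a + 2)! := by rw [h2]; ring
    _ ≤ c ! := h1

private theorem E2_sq {x : ℕ} (hx : 9 ≤ x) : (x + 2) * (x + 1) < x ! := by
  obtain ⟨y, rfl⟩ := Nat.exists_eq_add_of_le (show 1 ≤ x by omega)
  rw [Nat.add_comm 1 y, Nat.factorial_succ]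
  have h1 := fac_six (u := y) (by omega)
  have h2 : (y + 1) * (6 * y) ≤ (y + 1) * y ! := Nat.mul_le_mul_left _ h1
  nlinarith

theorem sp_beta {V : Finset ℕ} {a c : ℕ} (ha : 3 ≤ a) (hac : a + 1 < c) (hc : c + 2 < a !)
    (haV : a ∈ V) (hV : ∀ u ∈ V, u = a ∨ u = a ! ∨ u = (a !) - 1 ∨ u = c ∨ u = c !) (N : ℕ) :
    Good V N := by
  obtain ⟨p, hp1, hp⟩ := Nat.exists_infinite_primes (a + c + N + 12)
  obtain ⟨x, hx⟩ : ∃ x, p = x + 1 := ⟨p - 1, by omega⟩
  subst hx
  have g1 := fac_gap ha
  have g2 := fac_six (u := x) (by omega)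
  have g3 := E2_big hac ha
  have g4 : c ! < (a !)! := Nat.factorial_lt (by omega) |>.2 (by omega)
  have g5 := E2_sq (x := x) (by omega)
  have g6 : (x + 1)! = (x + 1) * x ! := Nat.factorial_succ x
  have g7 : x ! + 1 < (x + 1)! := by
    have h2 : 2 * x ! ≤ (x + 1) * x ! := Nat.mul_le_mul_right _ (by omega)
    omega
  have g8 := fac_gap (u := c) (by omega)
  have g9 := fac_gap (u := a !) (by omega)
  have g10 : c ! < ((a !) - 1)! := Nat.factorial_lt (by omega) |>.2 (by omega)
  have n1 : ¬ x ∣ x + 1 := by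
    intro hd
    have h1 := Nat.le_of_dvd (by omega) ((Nat.dvd_add_right dvd_rfl).1 hd)
    omega
  have n2 : ¬ x ∣ (x !) - 1 := by
    intro hd
    have h0 : x ∣ (x !) - ((x !) - 1) := Nat.dvd_sub (Nat.dvd_factorial (by omega) le_rfl) hd
    have h1 := Nat.le_of_dvd (by omega) h0
    omega
  have n3 : ¬ (x + 1) ∣ x ! := not_dvd_fac_of_prime hp
  have n4 : ¬ (x + 1) ∣ (x !) - 1 := by
    intro hd
    have hw : x + 1 ∣ x ! + 1 := wilson hp
    have h0 : x + 1 ∣ (x ! + 1) - ((x !) - 1) := Nat.dvd_sub hw hd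
    have h1 := Nat.le_of_dvd (by omega) h0
    omega
  have n5 : ¬ (x !) - 1 ∣ x ! := by
    intro hd
    have h0 : (x !) - 1 ∣ (x !) - ((x !) - 1) := Nat.dvd_sub hd dvd_rfl
    have h1 := Nat.le_of_dvd (by omega) h0
    omega
  have n6 : ¬ (x !) - 1 ∣ (x + 1)! := by
    intro hd
    rw [g6] at hd
    have hco : Nat.Coprime ((x !) - 1) (x !) := by
      have h0 : x ! = ((x !) - 1) + 1 := by omega
      conv_rhs => rw [h0]
      simp
    have h1 := Nat.le_of_dvd (by omega) (hco.dvd_of_dvd_mul_right hd)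
    omega
  refine ⟨fun u => u = (a, x) ∨ u = (c, x + 1) ∨ u = ((a !) - 1, (x !) - 1) ∨ u = (a !, x !) ∨
    u = (c !, (x + 1)!), ?_, ?_, ?_, ⟨a, haV, x, Or.inl rfl, by omega⟩⟩
  · rintro u u' (h | h | h | h | h) (h' | h' | h' | h' | h') <;> subst h <;> subst h'
    · exact rel_self _ (by simp only; omega)
    · exact ⟨fun h => by simp only at h; omega, fun h => by simp only at h; omega,
        fun h => by simp only at h; omega, fun _ => n1⟩
    · exact ⟨fun h => by simp only at h; omega, fun h => by simp only at h; omega,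
        fun h => by simp only at h; omega, fun _ => n2⟩
    · exact rel_chain ha (by omega)
    · exact rel_chain2 ha (by omega) (by omega) (by omega) (by omega)
    · exact rel_down' (by omega) (by omega) (by omega)
    · exact rel_self _ (by simp only; omega)
    · exact ⟨fun h => by simp only at h; omega, fun h => by simp only at h; omega,
        fun h => by simp only at h; omega, fun _ => n4⟩
    · exact ⟨fun h => by simp only at h; omega, fun h => by simp only at h; omega,
        fun h => by simp only at h; omega, fun _ => n3⟩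
    · exact rel_chain (by omega) (by omega)
    · exact rel_down' (by omega) (by omega) (by omega)
    · exact rel_down' (by omega) (by omega) (by omega)
    · exact rel_self _ (by simp only; omega)
    · exact ⟨fun h => by simp only at h; omega, fun _ => by simp only; omega,
        fun h => by simp only at h; omega, fun _ => n5⟩
    · exact ⟨fun h => by simp only at h; omega, fun h => by simp only at h; omega,
        fun h => by simp only at h; omega, fun _ => n6⟩
    · exact rel_down' (by omega) (by omega) (by omega)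
    · exact rel_down' (by omega) (by omega) (by omega)
    · exact rel_down' (by omega) (by omega) (by omega)
    · exact rel_self _ (by simp only; omega)
    · refine ⟨fun h => by simp only at h; omega, fun h => by simp only at h; omega,
        fun h => by simp only at h; omega, fun hn => absurd (Nat.factorial_dvd_factorial (by omega)) hn⟩
    · exact rel_down' (by omega) (by omega) (by omega)
    · exact rel_down' (by omega) (by omega) (by omega)
    · exact rel_down' (by omega) (by omega) (by omega)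
    · exact rel_down' (by omega) (by omega) (by omega)
    · exact rel_self _ (by simp only; omega)
  · rintro u (h | h | h | h | h) <;> subst h <;> simp only <;> omega
  · intro u hu
    rcases hV u hu with h | h | h | h | h
    · exact ⟨x, Or.inl (by rw [h])⟩
    · exact ⟨x !, Or.inr (Or.inr (Or.inr (Or.inl (by rw [h]))))⟩
    · exact ⟨(x !) - 1, Or.inr (Or.inr (Or.inl (by rw [h])))⟩
    · exact ⟨x + 1, Or.inr (Or.inl (by rw [h]))⟩
    · exact ⟨(x + 1)!, Or.inr (Or.inr (Or.inr (Or.inr (by rw [h]))))⟩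

end Pool.Agent.LibFSN
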