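import Pool.Agent.LibFS32.Base

/-! Row E3 (MEDIUM). Two interleaved components: `a, a !, (a !)!` and `c, c !` with `a < c < a !`.
PLAN. As `t1b`, `t3` in `Pool/Agent/LibFSN/Types2.lean`: `x = a + c + N + 12`, a prime `p` with `x < p ≤ 2 * x` (`Nat.exists_prime_lt_and_le_two_mul`), `p < x !`; send `a ↦ x`, `c ↦ p`, `a ! ↦ x !`, `c ! ↦ p !`, `(a !)! ↦ (x !)!`. Order: `a < c < a ! < c ! < (a !)!`, and `x < p < x ! < p ! < (x !)!` (`Nat.factorial_lt`), so pairs
(larger, smaller) are `rel_down'` and `rel_self`. Pairs (smaller, larger): `(a, c)`: not adjacent, `a ! ≠ c`, `x ∤ p` (`Nat.dvd_prime`); `(c, a !)`: `c + 1 ≠ a !`, `c ! ≠ a !`, `p ∤ x !` (`Nat.Prime.dvd_factorial`, `x < p`); `(a, a !)`, `(c, c !)`, `(a !, (a !)!)`: `rel_chain`; all other pairs: the smaller one divides the larger one, they are not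
adjacent and not in a factorial relation (`Nat.factorial_inj`, `fac_gap`). -/

set_option autoImplicit false

namespace Pool.Agent.LibFSN

open Nat Finset

theorem sp_gamma {V : Finset ℕ} {a c : ℕ} (ha : 3 ≤ a) (hac : a + 1 < c) (hc : c + 1 < a !)
    (haV : a ∈ V) (hV : ∀ u ∈ V, u = a ∨ u = a ! ∨ u = (a !)! ∨ u = c ∨ u = c !) (N : ℕ) :
    Good V N := by
  obtain ⟨x, hx⟩ : ∃ x, x = a + c + N + 12 := ⟨_, rfl⟩
  obtain ⟨p, hp, hxp, hp2⟩ := Nat.exists_prime_lt_and_le_two_mul x (by omega)
  have gx := fac_six (u := x) (by omega)
  have gc := fac_six (u := c) (by omega)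
  have gp := fac_six (u := p) (by omega)
  have ga := fac_gap ha
  have gaa := fac_six (u := a !) (by omega)
  have gxx := fac_six (u := x !) (by omega)
  have h1 : a ! < c ! := (Nat.factorial_lt (by omega)).2 (by omega)
  have h2 : c ! < (a !)! := (Nat.factorial_lt (by omega)).2 (by omega)
  have h3 : x ! < p ! := (Nat.factorial_lt (by omega)).2 (by omega)
  have h4 : p ! < (x !)! := (Nat.factorial_lt (by omega)).2 (by omega)
  have h5 : a ! ≤ x ! := Nat.factorial_le (by omega)
  have h6 : (a !)! < (c !)! := (Nat.factorial_lt (by omega)).2 h1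
  have e1 := fac_even (w := a) (by omega)
  have e2 := fac_even (w := c) (by omega)
  have e3 := fac_even (w := a !) (by omega)
  refine ⟨fun z => z = (a, x) ∨ z = (a !, x !) ∨ z = ((a !)!, (x !)!) ∨ z = (c, p) ∨
    z = (c !, p !), ?_, ?_, ?_, ⟨a, haV, x, Or.inl rfl, by omega⟩⟩
  · rintro z z' (h | h | h | h | h) (h' | h' | h' | h' | h') <;> subst h <;> subst h'
    · exact rel_self _ (by simp only; omega)
    · exact rel_chain ha (by omega)
    · exact rel_chain2 ha (by omega) (by omega) (by omega) h5
    · refine ⟨fun h => ?_, fun h => ?_, fun h => ?_, fun _ h => ?_⟩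
      · simp only at h; omega
      · simp only at h; omega
      · simp only at h; omega
      · simp only at h
        rcases (Nat.dvd_prime hp).1 h with h7 | h7 <;> omega
    · exact rel_chain2 ha (by omega) (by omega) (by omega) (by omega)
    · exact rel_down' (by omega) (by omega) (by omega)
    · exact rel_self _ (by simp only; omega)
    · exact rel_chain (by omega) h5
    · exact rel_down' (by omega) (by omega) (by omega)
    · refine ⟨fun h => ?_, fun h => ?_, fun h => ?_, fun h => ?_⟩
      · simp only at h; omega
      · simp only at h; omega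
      · simp only at h; omega
      · simp only at h
        exact absurd (Nat.factorial_dvd_factorial (by omega)) h
    · exact rel_down' (by omega) (by omega) (by omega)
    · exact rel_down' (by omega) (by omega) (by omega)
    · exact rel_self _ (by simp only; omega)
    · exact rel_down' (by omega) (by omega) (by omega)
    · exact rel_down' (by omega) (by omega) (by omega)
    · exact rel_down' (by omega) (by omega) (by omega)
    · refine ⟨fun h => ?_, fun h => ?_, fun h => ?_, fun _ h => ?_⟩
      · simp only at h; omega
      · simp only at h; omega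
      · simp only at h; omega
      · simp only at h
        have h7 := hp.dvd_factorial.1 h
        omega
    · exact rel_chain2 (by omega) (by omega) (by omega) (by omega) h5
    · exact rel_self _ (by simp only; omega)
    · exact rel_chain (by omega) (by omega)
    · exact rel_down' (by omega) (by omega) (by omega)
    · exact rel_down' (by omega) (by omega) (by omega)
    · refine ⟨fun h => ?_, fun h => ?_, fun h => ?_, fun h => ?_⟩
      · simp only at h; omega
      · simp only at h; omega
      · simp only at h; omega
      · simp only at h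
        exact absurd (Nat.factorial_dvd_factorial (by omega)) h
    · exact rel_down' (by omega) (by omega) (by omega)
    · exact rel_self _ (by simp only; omega)
  · rintro z (h | h | h | h | h) <;> subst h <;> simp only <;> omega
  · intro u hu
    rcases hV u hu with h | h | h | h | h
    · exact ⟨x, Or.inl (by rw [h])⟩
    · exact ⟨x !, Or.inr (Or.inl (by rw [h]))⟩
    · exact ⟨(x !)!, Or.inr (Or.inr (Or.inl (by rw [h])))⟩
    · exact ⟨p, Or.inr (Or.inr (Or.inr (Or.inl (by rw [h]))))⟩
    · exact ⟨p !, Or.inr (Or.inr (Or.inr (Or.inr (by rw [h]))))⟩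

end Pool.Agent.LibFSN
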