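import Pool.Agent.LibFS32.Base

/-! Row F1 (MEDIUM). The small part `L` of a value set `V` with at most five elements and an element `> bnd 5`.
PLAN. `cnt k = (V.filter fun u => u ≤ bnd k).card`. Let `k` be the largest `k ≤ 5` with `k = 0 ∨ k ≤ cnt k` (`Nat.findGreatest` or `Finset.exists_max_image` on `range 6`). `k ≠ 5`: `M` is not counted, so `cnt 5 ≤ 4`. `L = ∅` for `k = 0`, `L = V.filter (· ≤ bnd k)` for `k ≥ 1`. For `k ≥ 1`: `k ≤ cnt k ≤ cnt (k + 1) < k + 1`
(`bnd_mono`), so both filters are equal (`Finset.eq_of_subset_of_card_le`): `v ∈ V \ L` implies `bnd (k + 1) < v`. `adj`: `u ≤ bnd k`, `Adj u v` gives `v ≤ bnd (k + 1)` (`step_le`, `Adj` is exactly its hypothesis). `three`: `k = 0`: `cnt 1 = 0`, `bnd_one`; `k ≥ 1`: `bnd (k + 1) ≥ bnd 2 = 3`. `four`: `3 ∈ V \ L` is only possible for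
`k = 0`; then `cnt 3 < 3`, but `3, 4, 6 ≤ 6 = bnd 3` (`bnd_three`). `small`: if `L.card ≥ 2` the first alternative; otherwise `k ≤ cnt k = L.card ≤ 1` (`k ≥ 1`), `bnd_one`; `k = 0`: `L = ∅`. `M ∉ L`: `bnd k ≤ bnd 5 < M`. -/

set_option autoImplicit false

namespace Pool.Agent.LibFSN

open Nat Finset

/-- The situation after the cut. -/
structure Cut (V L : Finset ℕ) : Prop where
  card : V.card ≤ 5
  pos : ∀ u ∈ V, 1 ≤ u
  sub : L ⊆ V
  adj : ∀ u ∈ L, ∀ v ∈ V, v ∉ L → ¬ Adj u v ∧ u < v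
  three : ∀ v ∈ V, v ∉ L → 3 ≤ v
  four : 3 ∈ V → 3 ∉ L → 4 ∈ V → 6 ∉ V
  small : V.card ≤ L.card + 3 ∨ ∀ u ∈ L, u ≤ 2

theorem cut {V : Finset ℕ} (h5 : V.card ≤ 5) (hpos : ∀ u ∈ V, 1 ≤ u) {M : ℕ} (hM : M ∈ V)
    (hb : bnd 5 < M) : ∃ L, Cut V L ∧ M ∉ L := by
  classical
  obtain ⟨P, hP⟩ : ∃ P : ℕ → Prop, ∀ k, P k ↔ (k = 0 ∨ k ≤ (V.filter fun u => u ≤ bnd k).card) :=
    ⟨fun k => k = 0 ∨ k ≤ (V.filter fun u => u ≤ bnd k).card, fun k => Iff.rfl⟩
  obtain ⟨k, hk5, hk, hmax⟩ : ∃ k, k ≤ 5 ∧ P k ∧ ∀ m, k < m → m ≤ 5 → ¬ P m := by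
    refine ⟨Nat.findGreatest P 5, Nat.findGreatest_le 5, ?_, fun m h1 h2 =>
      Nat.findGreatest_is_greatest h1 h2⟩
    exact Nat.findGreatest_spec (m := 0) (by norm_num) ((hP 0).2 (Or.inl rfl))
  have hk' : k ≠ 5 := by
    rintro rfl
    have h1 := (hP 5).1 hk
    have h2 : (V.filter fun u => u ≤ bnd 5) ⊆ V.erase M := by
      intro u hu
      rw [mem_filter] at hu
      rw [mem_erase]
      refine ⟨?_, hu.1⟩
      rintro rfl
      omega
    have h3 := card_le_card h2
    rw [card_erase_of_mem hM] at h3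
    omega
  have hn : ∀ m, k < m → m ≤ 5 → (V.filter fun u => u ≤ bnd m).card < m := by
    intro m h1 h2
    by_contra hc
    exact hmax m h1 h2 ((hP m).2 (Or.inr (by omega)))
  rcases Nat.eq_zero_or_pos k with hk0 | hk0
  · refine ⟨∅, ⟨h5, hpos, empty_subset _, ?_, ?_, ?_, Or.inr (by simp)⟩, notMem_empty _⟩
    · intro u hu
      exact absurd hu (notMem_empty _)
    · intro v hv _
      have h1 := hn 1 (by omega) (by norm_num)
      have h2 : (V.filter fun u => u ≤ bnd 1) = ∅ := card_eq_zero.1 (by omega)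
      by_contra hc
      have h3 : v ∈ (V.filter fun u => u ≤ bnd 1) := mem_filter.2 ⟨hv, by rw [bnd_one]; omega⟩
      rw [h2] at h3
      exact absurd h3 (notMem_empty _)
    · intro h3 _ h4 h6
      have h1 := hn 3 (by omega) (by norm_num)
      have h2 : ({3, 4, 6} : Finset ℕ) ⊆ (V.filter fun u => u ≤ bnd 3) := by
        intro z hz
        rw [mem_filter, bnd_three]
        simp only [mem_insert, mem_singleton] at hz
        rcases hz with rfl | rfl | rfl
        · exact ⟨h3, by norm_num⟩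
        · exact ⟨h4, by norm_num⟩
        · exact ⟨h6, by norm_num⟩
      have h7 := card_le_card h2
      have h8 : ({3, 4, 6} : Finset ℕ).card = 3 := by decide
      omega
  · have hkc : k ≤ (V.filter fun u => u ≤ bnd k).card := by
      rcases (hP k).1 hk with h | h
      · omega
      · exact h
    have hsub : (V.filter fun u => u ≤ bnd k) ⊆ (V.filter fun u => u ≤ bnd (k + 1)) := by
      intro u hu
      rw [mem_filter] at hu ⊢
      exact ⟨hu.1, hu.2.trans (bnd_mono hk0 (Nat.le_succ k))⟩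
    have heq : (V.filter fun u => u ≤ bnd k) = (V.filter fun u => u ≤ bnd (k + 1)) := by
      apply eq_of_subset_of_card_le hsub
      have := hn (k + 1) (by omega) (by omega)
      omega
    have hbig : ∀ v ∈ V, v ∉ (V.filter fun u => u ≤ bnd k) → bnd (k + 1) < v := by
      intro v hv hvL
      rw [heq, mem_filter] at hvL
      by_contra hc
      exact hvL ⟨hv, by omega⟩
    have hb3 : 3 ≤ bnd (k + 1) := three_le_bnd (by omega)
    refine ⟨V.filter fun u => u ≤ bnd k, ⟨h5, hpos, filter_subset _ _, ?_, ?_, ?_, ?_⟩, ?_⟩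
    · intro u hu v hv hvL
      have h1 := hbig v hv hvL
      rw [mem_filter] at hu
      refine ⟨fun hadj => ?_, ?_⟩
      · have := step_le hk0 hu.2 hadj
        omega
      · have := bnd_succ_le hk0
        omega
    · intro v hv hvL
      have := hbig v hv hvL
      omega
    · intro h3 h3L _ _
      have := hbig 3 h3 h3L
      omega
    · by_cases h2 : 2 ≤ (V.filter fun u => u ≤ bnd k).card
      · left
        omega
      · right
        have hk1 : k = 1 := by omega
        intro u hu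
        rw [mem_filter, hk1, bnd_one] at hu
        exact hu.2
    · intro hML
      have h1 := (mem_filter.1 hML).2
      have h2 : bnd k ≤ bnd 5 := bnd_mono hk0 hk5
      omega

end Pool.Agent.LibFSN
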