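import Pool.Agent.LibFS32.F1

/-! Row F2 (MEDIUM). The component of an element outside `L`.
PLAN. `comp_exists V hd` (`Pool/Agent/LibFSN/Plus.lean`) gives `K`. `K` and `L` are disjoint: `W = K.filter (· ∉ L)` is closed under `Adj` within `K` (`h.adj`, `Adj.symm`), so `W = K`. `Cp K`: `conn`, `card` (`card_le_card`), `three`, `four` from `h`. There is an argument `w ∈ K`, `w ! ∈ K`: otherwise `free_run` (`Pool/Agent/LibFSN/Classify.lean`)
with `R = K` gives `Good V N` (`hs`, `hf` by the closure of `K`: `u ! = v` gives `v ∈ K`; `v ! = u` gives `v ∈ K`). `T` = the least argument (`Nat.find` or `Finset.min'` of the filter). `comp_disj`: `K ∩ K'` is closed under `Adj` in `K` and in `K'`, so if it is nonempty it is equal to both. -/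

set_option autoImplicit false

namespace Pool.Agent.LibFSN

open Nat Finset

private theorem F2_sub {V K K' : Finset ℕ} {T T' : ℕ} (h : Sit V K T) (h' : Sit V K' T') {x : ℕ}
    (hx : x ∈ K) (hx' : x ∈ K') : K ⊆ K' := by
  classical
  have h1 : K.filter (fun z => z ∈ K') = K := by
    apply h.cp.conn _ (filter_subset _ _) ⟨x, mem_filter.2 ⟨hx, hx'⟩⟩
    intro u hu v hv huv
    rw [mem_filter] at hu ⊢
    exact ⟨hv, h'.cl u hu.2 v (h.sub hv) huv⟩
  intro z hz
  rw [← h1] at hz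
  exact (mem_filter.1 hz).2

theorem Cut.comp {V L : Finset ℕ} (h : Cut V L) {N : ℕ} (hg : ¬ Good V N) {d : ℕ} (hd : d ∈ V)
    (hdL : d ∉ L) : ∃ K T, d ∈ K ∧ Sit V K T ∧ ∀ x ∈ K, x ∉ L := by
  classical
  obtain ⟨K, hKV, hdK, hcl, hmin⟩ := comp_exists V hd
  have hKL : ∀ x ∈ K, x ∉ L := by
    have h1 : K.filter (fun z => z ∉ L) = K := by
      apply hmin _ (filter_subset _ _) ⟨d, mem_filter.2 ⟨hdK, hdL⟩⟩
      intro u hu v hv huv
      rw [mem_filter] at hu ⊢
      refine ⟨hv, fun hvL => ?_⟩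
      exact (h.adj v hvL u (hKV hu.1) hu.2).1 huv.symm
    intro x hx
    rw [← h1] at hx
    exact (mem_filter.1 hx).2
  have hex : ∃ w, w ∈ K ∧ w ! ∈ K := by
    by_contra hc
    push Not at hc
    apply hg
    refine free_run hKV ⟨d, hdK⟩ h.pos ?_ ?_ N
    · intro u hu v hv
      exact ⟨fun h1 => hcl u hu v hv (Or.inl h1), fun h1 => hcl u hu v hv (Or.inr (Or.inl h1))⟩
    · intro u hu v hv
      refine ⟨fun h1 => ?_, fun h1 => ?_⟩
      · have h2 : v ∈ K := hcl u hu v hv (Or.inr (Or.inr (Or.inl h1)))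
        exact hc u hu (h1 ▸ h2)
      · have h2 : v ∈ K := hcl u hu v hv (Or.inr (Or.inr (Or.inr h1)))
        exact hc v h2 (h1.symm ▸ hu)
  refine ⟨K, Nat.find hex, hdK, ⟨hKV, hcl, ⟨hmin, (card_le_card hKV).trans h.card, ?_, ?_⟩,
    h.pos, h.card, (Nat.find_spec hex).1, (Nat.find_spec hex).2, ?_⟩, hKL⟩
  · intro u hu
    exact h.three u (hKV hu) (hKL u hu)
  · intro h3 h4 h6
    exact h.four (hKV h3) (hKL 3 h3) (hKV h4) (hKV h6)
  · intro w hw hwf
    exact Nat.find_min' hex ⟨hw, hwf⟩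

theorem comp_disj {V K K' : Finset ℕ} {T T' : ℕ} (h : Sit V K T) (h' : Sit V K' T') {x : ℕ}
    (hx : x ∈ K) (hx' : x ∈ K') : K = K' :=
  Subset.antisymm (F2_sub h h' hx hx') (F2_sub h' h hx' hx)

end Pool.Agent.LibFSN
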