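import Pool.Agent.LibFS32.F2
import Pool.Agent.LibFS32.E1
import Pool.Agent.LibFS32.E2
import Pool.Agent.LibFS32.E3

/-! Row F3 (MEDIUM). If `V` cannot be moved, `K` is the component of the largest element and `T` its least argument, then all elements outside `K` divide `T !`.
PLAN. `3 ≤ T`. `d ∈ L`: `d < T` (`h.adj`), `Nat.dvd_factorial` (`h.pos`). `d ∉ L`: assume `¬ d ∣ T !`, so `T < d`. `h.comp hg` gives `K'`, `a` with `d ∈ K'`, `Sit V K' a`; `K` and `K'` are disjoint (`comp_disj`, `d ∉ K`), so `a ≠ T`, and no element of `K` is adjacent to one of `K'` (`hK.cl`).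
CASE `a < T`: `a ! < T !`, `a ∣ T !`, `a ! ∣ T !`, so `d ≠ a, a !`; `T, T !, a, a !, d` are five different elements, so they are all of `V` (`five_all`). `M = T !` (`M ∈ K`, `T < T ! ≤ M`), so `d < T !`. `K' ⊆ {a, a !, d}`; `{a, a !}` is not closed under `Adj` in `K'` (otherwise `hK'.cp.conn` gives `d ∈ {a, a !}`), so `Adj a d` or
`Adj (a !) d`. `Adj a d`: `d = a + 1 ≤ T`, `d < a`, `d = a !` or `d ! = a`: all impossible. `Adj (a !) d`: `d = a ! + 1`: `sp_alpha` with `c = T` (`T < d`, `T ≠ a !`, `T + 1 ≠ a !`, `a + 1 ≠ T` since not adjacent); `d + 1 = a !`: `sp_beta` with `c = T` (`T < d`, `T + 1 ≠ d`); `(a !)! = d`: `d < T !` gives `a ! < T`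
(`Nat.factorial_le` otherwise), so `d ∣ T !`; `d ! = a !`: `d = a` (`Nat.factorial_inj'`), impossible.
CASE `T < a`: `T ! < a ! ≤ M`, `M ≠ a !` (`M ∈ K`), so `M > a ! > T !`; `T, T !, a, a !, M` are all of `V`, `K ⊆ {T, T !, M}`; as before `Adj T M` or `Adj (T !) M`; since `M ≥ T ! + 2`: `M = (T !)!`. `sp_gamma` with `a := T`, `c := a`: `T + 1 ≠ a`, `a ! < (T !)!` so `a < T !`, `a + 1 ≠ T !` (not adjacent). -/

set_option autoImplicit false

namespace Pool.Agent.LibFSN

open Nat Finset

theorem all_dvd {V L : Finset ℕ} (h : Cut V L) {N : ℕ} (hg : ¬ Good V N) {K : Finset ℕ} {T M : ℕ}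
    (hK : Sit V K T) (hKL : ∀ x ∈ K, x ∉ L) (hM : M ∈ K) (hmax : ∀ v ∈ V, v ≤ M) :
    ∀ d ∈ V, d ∉ K → d ∣ T ! := by
  classical
  intro d hd hdK
  have hT3 : 3 ≤ T := hK.cp.three T hK.mem
  have hTV : T ∈ V := hK.sub hK.mem
  have hTfV : T ! ∈ V := hK.sub hK.fac
  have hMV : M ∈ V := hK.sub hM
  have hTT : T < T ! := Nat.lt_factorial_self hT3
  by_cases hdL : d ∈ L
  · have h1 := (h.adj d hdL T hTV (hKL T hK.mem)).2
    exact Nat.dvd_factorial (h.pos d hd) h1.le
  by_contra hnd
  have hTd : T < d := by
    by_contra hc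
    exact hnd (Nat.dvd_factorial (h.pos d hd) (by omega))
  obtain ⟨K', a, hdK', hK', hK'L⟩ := h.comp hg hd hdL
  have hdis : ∀ x, x ∈ K → x ∈ K' → False := by
    intro x hx hx'
    have := comp_disj hK hK' hx hx'
    exact hdK (this ▸ hdK')
  have hne : ∀ x ∈ K, ∀ y ∈ K', x ≠ y := by
    intro x hx y hy hxy
    exact hdis x hx (hxy ▸ hy)
  have hnadj : ∀ x ∈ K, ∀ y ∈ K', ¬ Adj x y := by
    intro x hx y hy hadj
    exact hdis y (hK.cl x hx y (hK'.sub hy) hadj) hy
  have ha3 : 3 ≤ a := hK'.cp.three a hK'.mem
  have haV : a ∈ V := hK'.sub hK'.mem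
  have hafV : a ! ∈ V := hK'.sub hK'.fac
  have haa : a < a ! := Nat.lt_factorial_self ha3
  have n1 : T ≠ a := hne T hK.mem a hK'.mem
  have n2 : T ≠ a ! := hne T hK.mem _ hK'.fac
  have n3 : T ! ≠ a := hne _ hK.fac a hK'.mem
  have n4 : T ! ≠ a ! := hne _ hK.fac _ hK'.fac
  have n5 : T ! ≠ d := hne _ hK.fac _ hdK'
  have n6 : M ≠ a := hne M hM a hK'.mem
  have n7 : M ≠ a ! := hne M hM _ hK'.fac
  have n8 : M ≠ d := hne M hM _ hdK'
  have hTfM : T ! ≤ M := hmax _ hTfV
  have hafM : a ! ≤ M := hmax _ hafV
  have hdM : d ≤ M := hmax _ hd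
  rcases Nat.lt_or_ge a T with haT | haT
  · have hfl : a ! < T ! := (Nat.factorial_lt (by omega)).2 haT
    have d1 : d ≠ a := by
      rintro rfl
      exact hnd (Nat.dvd_factorial (by omega) haT.le)
    have d2 : d ≠ a ! := by
      rintro rfl
      exact hnd (Nat.factorial_dvd_factorial haT.le)
    have hall := five_all h.card hTV hTfV haV hafV hd
      ⟨by omega, n1, n2, by omega, n3, n4, n5, by omega, d1.symm, d2.symm⟩
    have hMT : M = T ! := by
      rcases hall M hMV with h1 | h1 | h1 | h1 | h1
      · omega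
      · exact h1
      · exact absurd h1 n6
      · exact absurd h1 n7
      · exact absurd h1 n8
    have hdlt : d < T ! := by omega
    have hadj : Adj a d ∨ Adj (a !) d := by
      by_contra hc
      push Not at hc
      have h1 : ({a, a !} : Finset ℕ) = K' := by
        apply hK'.cp.conn
        · intro z hz
          rw [mem_insert, mem_singleton] at hz
          rcases hz with rfl | rfl
          · exact hK'.mem
          · exact hK'.fac
        · exact ⟨a, mem_insert_self _ _⟩
        · intro u hu v hv huv
          rw [mem_insert, mem_singleton] at hu ⊢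
          rcases hall v (hK'.sub hv) with h1 | h1 | h1 | h1 | h1
          · exact absurd h1.symm (hne T hK.mem v hv)
          · exact absurd h1.symm (hne _ hK.fac v hv)
          · exact Or.inl h1
          · exact Or.inr h1
          · exfalso
            rw [h1] at huv
            rcases hu with rfl | rfl
            · exact hc.1 huv
            · exact hc.2 huv
      have h2 : d ∈ ({a, a !} : Finset ℕ) := h1.symm ▸ hdK'
      rw [mem_insert, mem_singleton] at h2
      rcases h2 with h2 | h2
      · exact d1 h2
      · exact d2 h2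
    have q1 : a + 1 ≠ T := fun h1 => hnadj T hK.mem a hK'.mem (Or.inr (Or.inl h1))
    have q2 : T + 1 ≠ a ! := fun h1 => hnadj T hK.mem _ hK'.fac (Or.inl h1)
    have q3 : T + 1 ≠ d := fun h1 => hnadj T hK.mem _ hdK' (Or.inl h1)
    rcases hadj with h1 | h1
    · rcases h1 with h1 | h1 | h1 | h1
      · omega
      · omega
      · exact d2 h1.symm
      · have := Nat.self_le_factorial d
        omega
    · rcases h1 with h1 | h1 | h1 | h1
      · apply hg
        refine sp_alpha (a := a) (c := T) ha3 (by omega) (by omega) haV ?_ N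
        intro u hu
        rcases hall u hu with h2 | h2 | h2 | h2 | h2
        · exact Or.inr (Or.inr (Or.inr (Or.inl h2)))
        · exact Or.inr (Or.inr (Or.inr (Or.inr h2)))
        · exact Or.inl h2
        · exact Or.inr (Or.inl h2)
        · exact Or.inr (Or.inr (Or.inl (h2.trans h1.symm)))
      · apply hg
        refine sp_beta (a := a) (c := T) ha3 (by omega) (by omega) haV ?_ N
        intro u hu
        rcases hall u hu with h2 | h2 | h2 | h2 | h2
        · exact Or.inr (Or.inr (Or.inr (Or.inl h2)))
        · exact Or.inr (Or.inr (Or.inr (Or.inr h2)))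
        · exact Or.inl h2
        · exact Or.inr (Or.inl h2)
        · exact Or.inr (Or.inr (Or.inl (by omega)))
      · rw [← h1] at hdlt hnd
        have h2 : a ! < T := (Nat.factorial_lt (by omega)).1 hdlt
        exact hnd (Nat.factorial_dvd_factorial h2.le)
      · have h2 : d = a := by
          by_contra hc
          rcases Nat.lt_or_gt_of_ne hc with h3 | h3
          · omega
          · have := (Nat.factorial_lt (by omega : 0 < a)).2 h3
            omega
        exact d1 h2
  · have haT' : T < a := by omega
    have hfl : T ! < a ! := (Nat.factorial_lt (by omega)).2 haT'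
    have hall := five_all h.card hTV hTfV haV hafV hMV
      ⟨by omega, n1, n2, by omega, n3, n4, by omega, by omega, n6.symm, n7.symm⟩
    have hadj : Adj T M ∨ Adj (T !) M := by
      by_contra hc
      push Not at hc
      have h1 : ({T, T !} : Finset ℕ) = K := by
        apply hK.cp.conn
        · intro z hz
          rw [mem_insert, mem_singleton] at hz
          rcases hz with rfl | rfl
          · exact hK.mem
          · exact hK.fac
        · exact ⟨T, mem_insert_self _ _⟩
        · intro u hu v hv huv
          rw [mem_insert, mem_singleton] at hu ⊢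
          rcases hall v (hK.sub hv) with h1 | h1 | h1 | h1 | h1
          · exact Or.inl h1
          · exact Or.inr h1
          · exact absurd h1 (hne v hv a hK'.mem)
          · exact absurd h1 (hne v hv _ hK'.fac)
          · exfalso
            rw [h1] at huv
            rcases hu with rfl | rfl
            · exact hc.1 huv
            · exact hc.2 huv
      have h2 : M ∈ ({T, T !} : Finset ℕ) := h1.symm ▸ hM
      rw [mem_insert, mem_singleton] at h2
      rcases h2 with h2 | h2 <;> omega
    have q1 : T + 1 ≠ a := fun h1 => hnadj T hK.mem a hK'.mem (Or.inl h1)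
    have q2 : a + 1 ≠ T ! := fun h1 => hnadj _ hK.fac a hK'.mem (Or.inr (Or.inl h1))
    have hMM := Nat.self_le_factorial M
    rcases hadj with h1 | h1
    · rcases h1 with h1 | h1 | h1 | h1 <;> omega
    · rcases h1 with h1 | h1 | h1 | h1
      · omega
      · omega
      · have h2 : a ! < (T !)! := by omega
        have h3 : a < T ! := (Nat.factorial_lt (by omega)).1 h2
        apply hg
        refine sp_gamma (a := T) (c := a) hT3 (by omega) (by omega) hTV ?_ N
        intro u hu
        rcases hall u hu with h4 | h4 | h4 | h4 | h4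
        · exact Or.inl h4
        · exact Or.inr (Or.inl h4)
        · exact Or.inr (Or.inr (Or.inr (Or.inl h4)))
        · exact Or.inr (Or.inr (Or.inr (Or.inr h4)))
        · exact Or.inr (Or.inr (Or.inl (h4.trans h1.symm)))
      · omega

end Pool.Agent.LibFSN
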