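import Pool.Agent.LibFS32.F3
import Pool.Agent.LibFS32.D5

/-! Value sets with five elements (assembly). -/

set_option autoImplicit false

namespace Pool.Agent.LibFSN

open Nat Finset

theorem good_five (H : Hyp) {V : Finset ℕ} (h5 : V.card ≤ 5) (hpos : ∀ u ∈ V, 1 ≤ u)
    (h : ∃ M ∈ V, bnd 5 < M) (N : ℕ) : Good V N := by
  classical
  by_contra hg
  obtain ⟨M₀, hM₀, hb⟩ := h
  obtain ⟨M, hM, hmax⟩ := V.exists_max_image id ⟨M₀, hM₀⟩
  simp only [id] at hmax
  obtain ⟨L, hL, hML⟩ := cut h5 hpos hM (lt_of_lt_of_le hb (hmax _ hM₀))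
  obtain ⟨K, T, hMK, hK, hKL⟩ := hL.comp hg hM hML
  refine hg (one_comp H hK (all_dvd hL hg hK hKL hMK hmax) (fun h4 d hd hdK => ?_) N)
  by_cases hdL : d ∈ L
  · rcases hL.small with h6 | h6
    · exfalso
      have h7 : Disjoint K L := disjoint_left.2 fun x hx hx' => hKL x hx hx'
      have h8 : (K ∪ L).card ≤ V.card := card_le_card (union_subset hK.sub hL.sub)
      rw [card_union_of_disjoint h7] at h8
      omega
    · exact h6 d hdL
  · exfalso
    obtain ⟨K', a, hdK', hK', -⟩ := hL.comp hg hd hdL
    have h7 : Disjoint K K' := disjoint_left.2 fun x hx hx' =>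
      hdK (comp_disj hK hK' hx hx' ▸ hdK')
    have h8 : (K ∪ K').card ≤ V.card := card_le_card (union_subset hK.sub hK'.sub)
    rw [card_union_of_disjoint h7] at h8
    have h9 : ({a, a !} : Finset ℕ).card ≤ K'.card := by
      apply card_le_card
      intro z hz
      simp only [mem_insert, mem_singleton] at hz
      rcases hz with rfl | rfl
      · exact hK'.mem
      · exact hK'.fac
    have h10 := fac_gap (hK'.cp.three a hK'.mem)
    have h11 := hK'.cp.three a hK'.mem
    rw [card_insert_of_notMem (by simp; omega), card_singleton] at h9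
    omega

end Pool.Agent.LibFSN
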