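import Pool.Agent.LibFS32.Base

/-! Row G1 (MEDIUM). `Phi 5` implies that there are infinitely many twin primes, and infinitely many primes `m ! - 1`.
PLAN. As `primes_of_four` in `Pool/Agent/LibFSN/Prim.lean`. `only_twin`: `A = {(0,1), (1,2), (2,3)}`, `B = {(0,4)}`, `C = {(1,4), (3,4)}`: the solutions are `(x, x + 1, x + 2, x + 3, x !)` with `x + 1 ∤ x !`, `x + 3 ∤ x !`; for `x ≥ 5` both `x + 1`, `x + 3` are prime (`prime_of_not_dvd` for `x + 1`; for `x + 3`: a composite
`n ≥ 6` divides `(n - 3)!`, private lemma as `dvd_fac_of_composite`); for `x < 5` finitely many. If there are finitely many twin primes then there are finitely many solutions (image of a finite set of `x`). Solution `x = 820` (`821`, `823` are prime, `norm_num`; `p ∤ x !` by `Nat.Prime.dvd_factorial`), and `820 ! > 720 ! = bnd 5` (`bnd_succ`,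
`bnd_four`, `Nat.factorial_lt`; do not let Lean evaluate these factorials: `generalize`/`obtain ⟨F, hF⟩ : ∃ F, F = 820 !`, as in `primes_of_four`). `only_minus`: `A = {(2,1), (3,2)}`, `B = {(0,1), (3,4)}`, `C = {(2,4)}`: the solutions are `(m, m !, m ! - 1, m ! - 2, (m ! - 2)!)` with `m ! - 1 ∤ (m ! - 2)!` (so `m ≥ 3`), hence `m ! - 1` prime
(`5` for `m = 3`; `prime_of_not_dvd` for `m ≥ 4`). Solution `m = 7`: `5039` is prime (`norm_num`), the last coordinate is `5038 ! > 720 !`. -/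

set_option autoImplicit false

namespace Pool.Agent.LibFSN

open Nat Finset

private theorem G1_dvd {n : ℕ} (hn : 6 ≤ n) (hp : ¬ n.Prime) : n ∣ (n - 3)! := by
  obtain ⟨a, ha, ha1, ha2⟩ := Nat.exists_dvd_of_not_prime (by omega) hp
  obtain ⟨b, rfl⟩ := ha
  have hb0 : 0 < b := Nat.pos_of_ne_zero (by rintro rfl; simp at hn)
  have ha0 : 0 < a := Nat.pos_of_ne_zero (by rintro rfl; simp at hn)
  have hb1 : b ≠ 1 := by rintro rfl; simp at ha2
  have key : ∀ {c d m : ℕ}, 0 < c → c < d → d ≤ m → c * d ∣ m ! := by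
    intro c d m hc hcd hdm
    have h1 : c ∣ (d - 1)! := Nat.dvd_factorial hc (by omega)
    have h2 : c * d ∣ (d - 1)! * d := Nat.mul_dvd_mul_right h1 d
    have h3 : (d - 1)! * d = d ! := by
      have := Nat.mul_factorial_pred (n := d) (by omega)
      rw [mul_comm]
      exact this
    rw [h3] at h2
    exact h2.trans (Nat.factorial_dvd_factorial hdm)
  rcases lt_trichotomy a b with h | h | h
  · apply key ha0 h
    have : 2 * b ≤ a * b := Nat.mul_le_mul_right b (by omega)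
    omega
  · subst h
    have h3 : 3 ≤ a := by
      by_contra hc
      have : a ≤ 2 := by omega
      interval_cases a <;> omega
    have h4 : a * a ∣ a * (2 * a) := ⟨2, by ring⟩
    refine h4.trans (key ha0 (by omega) ?_)
    have : 3 * a ≤ a * a := Nat.mul_le_mul_right a h3
    omega
  · rw [mul_comm]
    apply key hb0 h
    have : a * 2 ≤ a * b := Nat.mul_le_mul_left a (by omega)
    rw [mul_comm b a]
    omega

private theorem G1_prime {x : ℕ} (hx : 5 ≤ x) (h : ¬ x + 3 ∣ x !) : (x + 3).Prime := by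
  by_contra hc
  exact h (G1_dvd (n := x + 3) (by omega) hc)

private theorem G1_bnd : bnd 5 = (720)! := by
  rw [bnd_succ (by norm_num), bnd_four]

theorem only_twin
    (h : ∀ A B C : Set (Fin 5 × Fin 5), (Sols A B C).Finite → ∀ x ∈ Sols A B C, ∀ i, x i ≤ bnd 5) :
    {p : ℕ | p.Prime ∧ (p + 2).Prime}.Infinite := by
  intro hfin
  let A : Set (Fin 5 × Fin 5) := {(0, 1), (1, 2), (2, 3)}
  let B : Set (Fin 5 × Fin 5) := {(0, 4)}
  let C : Set (Fin 5 × Fin 5) := {(1, 4), (3, 4)}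
  have hsol : ∀ x : Fin 5 → ℕ, x ∈ Sols A B C ↔ (∀ i, 1 ≤ x i) ∧
      (x 0 + 1 = x 1 ∧ x 1 + 1 = x 2 ∧ x 2 + 1 = x 3) ∧ (x 0)! = x 4 ∧
      (¬ x 1 ∣ x 4 ∧ ¬ x 3 ∣ x 4) := by
    intro x
    simp [Sols, A, B, C]
  have key : (Sols A B C).Finite := by
    refine (((Set.finite_lt_nat 5).union (hfin.image fun p => p - 1)).image
      fun m => ![m, m + 1, m + 2, m + 3, m !]).subset ?_
    intro x hx
    rw [hsol] at hx
    obtain ⟨h0, ⟨h1, h2, h3⟩, h4, h5, h6⟩ := hx
    refine ⟨x 0, ?_, ?_⟩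
    · rcases Nat.lt_or_ge (x 0) 5 with h7 | h7
      · exact Or.inl h7
      · right
        refine ⟨x 0 + 1, ⟨?_, ?_⟩, by simp⟩
        · rw [← h1, ← h4] at h5
          exact prime_of_not_dvd (by omega) (by omega) h5
        · rw [← h3, ← h2, ← h1, ← h4] at h6
          exact G1_prime h7 h6
    · funext i
      fin_cases i
      · rfl
      · exact h1
      · show x 0 + 2 = x 2
        omega
      · show x 0 + 3 = x 3
        omega
      · exact h4
  obtain ⟨N, hN⟩ : ∃ N : ℕ, N = 820 := ⟨_, rfl⟩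
  have hp1 : (N + 1).Prime := by rw [hN]; norm_num
  have hp2 : (N + 3).Prime := by rw [hN]; norm_num
  have hx : (![N, N + 1, N + 2, N + 3, N !] : Fin 5 → ℕ) ∈ Sols A B C := by
    rw [hsol]
    refine ⟨?_, ⟨rfl, rfl, rfl⟩, rfl, ?_, ?_⟩
    · intro i
      fin_cases i
      · show 1 ≤ N; omega
      · show 1 ≤ N + 1; omega
      · show 1 ≤ N + 2; omega
      · show 1 ≤ N + 3; omega
      · exact Nat.factorial_pos _
    · exact not_dvd_fac_of_prime hp1
    · show ¬ N + 3 ∣ (N !)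
      rw [hp2.dvd_factorial]
      omega
  have h3 : N ! ≤ bnd 5 := h A B C key _ hx 4
  rw [G1_bnd] at h3
  exact absurd h3 (not_le.2 (Nat.factorial_lt (by norm_num) |>.2 (by omega)))

theorem only_minus
    (h : ∀ A B C : Set (Fin 5 × Fin 5), (Sols A B C).Finite → ∀ x ∈ Sols A B C, ∀ i, x i ≤ bnd 5) :
    {m : ℕ | ((m !) - 1).Prime}.Infinite := by
  intro hfin
  let A : Set (Fin 5 × Fin 5) := {(2, 1), (3, 2)}
  let B : Set (Fin 5 × Fin 5) := {(0, 1), (3, 4)}
  let C : Set (Fin 5 × Fin 5) := {(2, 4)}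
  have hsol : ∀ x : Fin 5 → ℕ, x ∈ Sols A B C ↔ (∀ i, 1 ≤ x i) ∧
      (x 2 + 1 = x 1 ∧ x 3 + 1 = x 2) ∧ ((x 0)! = x 1 ∧ (x 3)! = x 4) ∧ ¬ x 2 ∣ x 4 := by
    intro x
    simp [Sols, A, B, C]
  have key : (Sols A B C).Finite := by
    refine (hfin.image fun m => ![m, m !, (m !) - 1, (m !) - 2, ((m !) - 2)!]).subset ?_
    intro x hx
    rw [hsol] at hx
    obtain ⟨h0, ⟨h1, h2⟩, ⟨h3, h4⟩, h5⟩ := hx
    have h30 := h0 3
    have e2 : x 2 = (x 0)! - 1 := by omega
    have e3 : x 3 = (x 0)! - 2 := by omega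
    refine ⟨x 0, ?_, ?_⟩
    · show ((x 0)! - 1).Prime
      rw [← h4, e2, e3] at h5
      by_cases hx0 : x 0 < 4
      · have h6 : 3 ≤ (x 0)! := by omega
        interval_cases h7 : (x 0)
        · norm_num [Nat.factorial] at h6
        · norm_num [Nat.factorial] at h6
        · norm_num [Nat.factorial] at h6
        · norm_num [Nat.factorial]
      · have h6 := fac_six (u := x 0) (by omega)
        exact prime_of_not_dvd (by omega) (by omega) h5
    · funext i
      fin_cases i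
      · rfl
      · exact h3
      · exact e2.symm
      · exact e3.symm
      · show ((x 0)! - 2)! = x 4
        rw [← e3, h4]
  obtain ⟨F, hF⟩ : ∃ F : ℕ, (7)! = F := ⟨_, rfl⟩
  have hF' : F = 5040 := by rw [← hF]; norm_num [Nat.factorial]
  have hp : (F - 2 + 1).Prime := by
    rw [hF']; norm_num
  have hF720 : 722 < F := by rw [hF']; norm_num
  clear hF'
  have hx : (![7, F, F - 2 + 1, F - 2, (F - 2)!] : Fin 5 → ℕ) ∈ Sols A B C := by
    rw [hsol]
    refine ⟨?_, ⟨?_, rfl⟩, ⟨hF, rfl⟩, ?_⟩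
    · intro i
      fin_cases i
      · show 1 ≤ 7; norm_num
      · show 1 ≤ F; omega
      · show 1 ≤ F - 2 + 1; omega
      · show 1 ≤ F - 2; omega
      · exact Nat.factorial_pos _
    · show F - 2 + 1 + 1 = F
      omega
    · exact not_dvd_fac_of_prime hp
  have h3 : (F - 2)! ≤ bnd 5 := h A B C key _ hx 4
  rw [G1_bnd] at h3
  exact absurd h3 (not_le.2 (Nat.factorial_lt (by norm_num) |>.2 (by omega)))

end Pool.Agent.LibFSN
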