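import Pool.Agent.LibFS32.Base

/-! Row G2 (MEDIUM). `Phi 5` implies that there are infinitely many odd `m` with `m ! + 1` prime, and the statement on `(m !)! + 1`.
PLAN. As `primes_of_four` in `Pool/Agent/LibFSN/Prim.lean`. `only_odd`: `A = {(2,3)}`, `B = {(0,0), (1,2), (2,4)}`, `C = {(0,1), (3,4)}`: `x 0 ! = x 0` gives `x 0 = 1` or `2`; `x 0 ∤ x 1` gives `x 0 = 2`, `m = x 1` odd; the solutions are `(2, m, m !, m ! + 1, (m !)!)`, `m` odd, `m ! + 1 ∤ (m !)!`, so `m ! + 1` is prime (`m = 1`: `2`; `m ≥ 3`: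
`prime_of_not_dvd`). Solution `m = 11`: `11 ! + 1 = 39916801` is prime (`norm_num`, as in `primes_of_four`), last coordinate `(11 !)! > 720 ! = bnd 5` (`bnd_succ`, `bnd_four`, `Nat.factorial_lt`; do not let Lean evaluate these factorials, use `obtain ⟨F, hF⟩ : ∃ F, F = 11 !`). `only_dbl`: if the set is not empty, take `m₀` in it, and suppose that it is finite.
`A = {(2,3)}`, `B = {(0,1), (1,2), (2,4)}`, `C = {(3,4)}`: the solutions are `(m, m !, (m !)!, (m !)! + 1, ((m !)!)!)` with `(m !)! + 1 ∤ ((m !)!)!`, so `m ≤ 3` or `(m !)! + 1` is prime (`prime_of_not_dvd`): finitely many. The solution `m₀` has the last coordinate `((m₀ !)!)! > 720 !` (`m₀ ≥ 4`: `m₀ ! ≥ 24`, `(m₀ !)! ≥ 24 ! ≥ 24 * 23 * 22 > 720`). -/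

set_option autoImplicit false

namespace Pool.Agent.LibFSN

open Nat Finset

theorem only_odd
    (h : ∀ A B C : Set (Fin 5 × Fin 5), (Sols A B C).Finite → ∀ x ∈ Sols A B C, ∀ i, x i ≤ bnd 5) :
    {m : ℕ | m % 2 = 1 ∧ (m ! + 1).Prime}.Infinite := by
  intro hfin
  let A : Set (Fin 5 × Fin 5) := {(2, 3)}
  let B : Set (Fin 5 × Fin 5) := {(0, 0), (1, 2), (2, 4)}
  let C : Set (Fin 5 × Fin 5) := {(0, 1), (3, 4)}
  have hsol : ∀ x : Fin 5 → ℕ, x ∈ Sols A B C ↔ (∀ i, 1 ≤ x i) ∧ x 2 + 1 = x 3 ∧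
      ((x 0)! = x 0 ∧ (x 1)! = x 2 ∧ (x 2)! = x 4) ∧ (¬ x 0 ∣ x 1 ∧ ¬ x 3 ∣ x 4) := by
    intro x
    simp [Sols, A, B, C]
  have key : (Sols A B C).Finite := by
    refine (hfin.image fun m => ![2, m, m !, m ! + 1, (m !)!]).subset ?_
    intro x hx
    rw [hsol] at hx
    obtain ⟨h0, h1, ⟨h2, h3, h4⟩, h5, h6⟩ := hx
    have hx0 : x 0 = 2 := by
      have h7 := h0 0
      have h8 : x 0 < 3 := by
        by_contra h9
        have := Nat.lt_factorial_self (n := x 0) (by omega)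
        omega
      have h9 : x 0 ≠ 1 := by
        intro h10
        rw [h10] at h5
        exact h5 (one_dvd _)
      omega
    refine ⟨x 1, ⟨?_, ?_⟩, ?_⟩
    · rw [hx0] at h5
      omega
    · rw [← h4, ← h1, ← h3] at h6
      show ((x 1)! + 1).Prime
      by_cases hx1 : x 1 < 3
      · have := h0 1
        interval_cases (x 1) <;> norm_num [Nat.factorial]
      · have h7 := fac_gap (u := x 1) (by omega)
        exact prime_of_not_dvd (by omega) (by omega) h6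
    · funext i
      fin_cases i
      · exact hx0.symm
      · rfl
      · exact h3
      · show (x 1)! + 1 = x 3
        rw [h3, h1]
      · show ((x 1)!)! = x 4
        rw [h3, h4]
  obtain ⟨F, hF⟩ : ∃ F : ℕ, (11)! = F := ⟨_, rfl⟩
  have hF' : F = 39916800 := by rw [← hF]; norm_num [Nat.factorial]
  have h11 : (F + 1).Prime := by
    rw [hF']; norm_num
  have hF720 : 720 < F := by rw [hF']; norm_num
  clear hF'
  have hx : (![2, 11, F, F + 1, F !] : Fin 5 → ℕ) ∈ Sols A B C := by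
    rw [hsol]
    refine ⟨?_, rfl, ⟨rfl, hF, rfl⟩, ?_, ?_⟩
    · intro i
      fin_cases i
      · show 1 ≤ 2; norm_num
      · show 1 ≤ 11; norm_num
      · show 1 ≤ F; omega
      · show 1 ≤ F + 1; omega
      · exact Nat.factorial_pos _
    · show ¬ 2 ∣ 11
      norm_num
    · exact not_dvd_fac_of_prime h11
  have h3 : F ! ≤ bnd 5 := h A B C key _ hx 4
  rw [bnd_succ (by norm_num), bnd_four] at h3
  have h4 : (720)! < F ! := (Nat.factorial_lt (by norm_num)).2 hF720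
  exact absurd h3 (not_le.2 h4)

theorem only_dbl
    (h : ∀ A B C : Set (Fin 5 × Fin 5), (Sols A B C).Finite → ∀ x ∈ Sols A B C, ∀ i, x i ≤ bnd 5) :
    {m : ℕ | 4 ≤ m ∧ ((m !)! + 1).Prime} = ∅ ∨ {m : ℕ | 4 ≤ m ∧ ((m !)! + 1).Prime}.Infinite := by
  rcases Set.eq_empty_or_nonempty {m : ℕ | 4 ≤ m ∧ ((m !)! + 1).Prime} with he | ⟨m₀, hm₀, hp₀⟩
  · exact Or.inl he
  right
  intro hfin
  let A : Set (Fin 5 × Fin 5) := {(2, 3)}
  let B : Set (Fin 5 × Fin 5) := {(0, 1), (1, 2), (2, 4)}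
  let C : Set (Fin 5 × Fin 5) := {(3, 4)}
  have hsol : ∀ x : Fin 5 → ℕ, x ∈ Sols A B C ↔ (∀ i, 1 ≤ x i) ∧ x 2 + 1 = x 3 ∧
      ((x 0)! = x 1 ∧ (x 1)! = x 2 ∧ (x 2)! = x 4) ∧ ¬ x 3 ∣ x 4 := by
    intro x
    simp [Sols, A, B, C]
  have key : (Sols A B C).Finite := by
    refine ((hfin.union (Set.finite_lt_nat 4)).image
      fun m => ![m, m !, (m !)!, (m !)! + 1, ((m !)!)!]).subset ?_
    intro x hx
    rw [hsol] at hx
    obtain ⟨h0, h1, ⟨h2, h3, h4⟩, h6⟩ := hx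
    refine ⟨x 0, ?_, ?_⟩
    · by_cases hx0 : x 0 < 4
      · exact Or.inr hx0
      · left
        refine ⟨by omega, ?_⟩
        rw [← h4, ← h1, ← h3, ← h2] at h6
        show (((x 0)!)! + 1).Prime
        have h7 := fac_gap (u := x 0) (by omega)
        have h8 := fac_gap (u := (x 0)!) (by omega)
        exact prime_of_not_dvd (by omega) (by omega) h6
    · funext i
      fin_cases i
      · rfl
      · exact h2
      · show ((x 0)!)! = x 2
        rw [h2, h3]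
      · show ((x 0)!)! + 1 = x 3
        rw [h2, h3, h1]
      · show (((x 0)!)!)! = x 4
        rw [h2, h3, h4]
  obtain ⟨E, hE⟩ : ∃ E : ℕ, m₀ ! = E := ⟨_, rfl⟩
  obtain ⟨F, hF⟩ : ∃ F : ℕ, E ! = F := ⟨_, rfl⟩
  rw [hE, hF] at hp₀
  have hE24 : 24 ≤ E := by
    rw [← hE]
    exact Nat.factorial_le hm₀
  have hF720 : 720 < F := by
    have h7 : (7)! ≤ E ! := Nat.factorial_le (by omega)
    rw [hF] at h7
    have h8 : (7)! = 5040 := rfl
    omega
  have hx : (![m₀, E, F, F + 1, F !] : Fin 5 → ℕ) ∈ Sols A B C := by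
    rw [hsol]
    refine ⟨?_, rfl, ⟨hE, hF, rfl⟩, ?_⟩
    · intro i
      fin_cases i
      · show 1 ≤ m₀; omega
      · show 1 ≤ E; omega
      · show 1 ≤ F; omega
      · show 1 ≤ F + 1; omega
      · exact Nat.factorial_pos _
    · exact not_dvd_fac_of_prime hp₀
  have h3 : F ! ≤ bnd 5 := h A B C key _ hx 4
  rw [bnd_succ (by norm_num), bnd_four] at h3
  have h4 : (720)! < F ! := (Nat.factorial_lt (by norm_num)).2 hF720
  exact absurd h3 (not_le.2 h4)

end Pool.Agent.LibFSN
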