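import Pool.Agent.LibFS32.F4
import Pool.Agent.LibFS32.G1
import Pool.Agent.LibFS32.G2

/-! The final statement. -/

set_option autoImplicit false

namespace Pool.Agent.LibFSN

open Nat Finset

/-- The statement `Φ_n`: if a system in `n` unknowns has only finitely many solutions in positive
integers, then all its solutions are bounded by `f n`. -/
def Phi (n : ℕ) : Prop :=
  ∀ A B C : Set (Fin n × Fin n), (Sols A B C).Finite → ∀ x ∈ Sols A B C, ∀ i, x i ≤ bnd n

theorem phi_five : Phi 5 ↔ {p : ℕ | p.Prime ∧ (p + 2).Prime}.Infinite ∧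
    {m : ℕ | ((m !) - 1).Prime}.Infinite ∧ {m : ℕ | m % 2 = 1 ∧ (m ! + 1).Prime}.Infinite ∧
    ({m : ℕ | 4 ≤ m ∧ ((m !)! + 1).Prime} = ∅ ∨ {m : ℕ | 4 ≤ m ∧ ((m !)! + 1).Prime}.Infinite) :=
  ⟨fun h => ⟨only_twin h, only_minus h, only_odd h, only_dbl h⟩,
    fun H A B C hfin x hx i => bound_of_good (fun V hV hpos h N =>
      good_five ⟨H.1, H.2.1, H.2.2.1, H.2.2.2⟩ hV hpos h N) A B C hfin x hx i⟩

theorem phi_small :
    Phi 1 ∧ Phi 2 ∧ Phi 3 ∧ (Phi 4 ↔ {m : ℕ | (Nat.factorial m + 1).Prime}.Infinite) := by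
  refine ⟨?_, ?_, ?_, ⟨?_, ?_⟩⟩
  · exact fun A B C hfin x hx i => bound_of_good (fun V hV hpos h N =>
      good_two (k := 1) hV (Or.inl rfl) hpos h N) A B C hfin x hx i
  · exact fun A B C hfin x hx i => bound_of_good (fun V hV hpos h N =>
      good_two (k := 2) hV (Or.inr rfl) hpos h N) A B C hfin x hx i
  · exact fun A B C hfin x hx i => bound_of_good (fun V hV hpos h N =>
      good_three hV hpos h N) A B C hfin x hx i
  · intro h
    refine primes_of_four fun A B C hfin x hx i => ?_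
    have := h A B C hfin x hx i
    rwa [bnd_four] at this
  · exact fun H A B C hfin x hx i => bound_of_good (fun V hV hpos h N =>
      good_four H hV hpos h N) A B C hfin x hx i

end Pool.Agent.LibFSN
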